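import Mathlib
import Pool.Agent.R70.OC.Poly

/-!
# Families of curves `s² = q(t)` through the points of a variety: definitions and analysis
-/

set_option autoImplicit false

open MvPolynomial Filter Topology

namespace Pool.Agent.D0H62.EF

variable {N c : ℕ}

/-- The real points of the variety `X = {p = 0, g ≠ 0}`. -/
def RealPt (p : Fin c → MvPolynomial (Fin N) ℚ) (g : MvPolynomial (Fin N) ℚ) (x : Fin N → ℝ) :
    Prop :=
  (∀ i, (aeval x (p i) : ℝ) = 0) ∧ (aeval x g : ℝ) ≠ 0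

/-- A family of curves of genus at most one through the points of `X = {p = 0, g ≠ 0}`: rational
maps `(t, s) ↦ P(t, s, x) / D(t, s, x)` to `X` from the curves `s² = q₀(x) + q₁(x) t + … + q₄(x) t⁴`,
where `q₀(x) = w(x)²` for `x ∈ X`, which map the point `(0, w(x))` to `x`. -/
structure Curves (p : Fin c → MvPolynomial (Fin N) ℚ) (g : MvPolynomial (Fin N) ℚ) where
  q : Fin 5 → MvPolynomial (Fin N) ℚ
  w : MvPolynomial (Fin N) ℚ
  P : Fin N → MvPolynomial (Fin 2 ⊕ Fin N) ℚ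
  D : MvPolynomial (Fin 2 ⊕ Fin N) ℚ
  base : ∀ x : Fin N → ℝ, RealPt p g x → (aeval x w : ℝ) ^ 2 = aeval x (q 0)
  maps : ∀ (x : Fin N → ℝ) (t s : ℝ), RealPt p g x →
    s ^ 2 = ∑ k : Fin 5, (aeval x (q k) : ℝ) * t ^ (k : ℕ) →
    (aeval (Sum.elim ![t, s] x) D : ℝ) ≠ 0 → ∀ i,
    (aeval (fun j => (aeval (Sum.elim ![t, s] x) (P j) : ℝ) /
      (aeval (Sum.elim ![t, s] x) D : ℝ)) (p i) : ℝ) = 0
  start : ∀ x : Fin N → ℝ, RealPt p g x → (aeval x w : ℝ) ≠ 0 →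
    (aeval (Sum.elim ![0, (aeval x w : ℝ)] x) D : ℝ) ≠ 0 → ∀ j,
    (aeval (Sum.elim ![0, (aeval x w : ℝ)] x) (P j) : ℝ) =
      x j * (aeval (Sum.elim ![0, (aeval x w : ℝ)] x) D : ℝ)

variable {p : Fin c → MvPolynomial (Fin N) ℚ} {g : MvPolynomial (Fin N) ℚ}

namespace Curves

variable (C : Curves p g)

/-- the quotient of `q(t)` and `w²` -/
noncomputable def Rv (t : ℝ) (x : Fin N → ℝ) : ℝ :=
  1 + ((aeval x (C.q 1) : ℝ) * t + (aeval x (C.q 2) : ℝ) * t ^ 2 + (aeval x (C.q 3) : ℝ) * t ^ 3 +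
    (aeval x (C.q 4) : ℝ) * t ^ 4) * ((aeval x C.w : ℝ) ^ 2)⁻¹

/-- the branch of the square root -/
noncomputable def sv (t : ℝ) (x : Fin N → ℝ) : ℝ := (aeval x C.w : ℝ) * √(C.Rv t x)

/-- the values of a polynomial in `t, s, x` -/
noncomputable def ev (f : MvPolynomial (Fin 2 ⊕ Fin N) ℚ) (t s : ℝ) (x : Fin N → ℝ) : ℝ :=
  aeval (Sum.elim ![t, s] x) f

/-- the move, in a form which makes sense for all `x` -/
noncomputable def psi (a : ℝ × (Fin N → ℝ)) : Fin N → ℝ := fun j =>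
  a.2 j + (ev (C.P j) a.1 (C.sv a.1 a.2) a.2 * (ev C.D a.1 (C.sv a.1 a.2) a.2)⁻¹ -
    ev (C.P j) 0 (aeval a.2 C.w) a.2 * (ev C.D 0 (aeval a.2 C.w) a.2)⁻¹)

/-- the domain -/
def Ok (t : ℝ) (x : Fin N → ℝ) : Prop :=
  (aeval x C.w : ℝ) ≠ 0 ∧ 0 < C.Rv t x ∧ ev C.D t (C.sv t x) x ≠ 0 ∧ ev C.D 0 (aeval x C.w) x ≠ 0

/-- the polynomial at `0` is nonzero -/
def Ok0 (x : Fin N → ℝ) : Prop := (aeval x C.w : ℝ) ≠ 0 ∧ ev C.D 0 (aeval x C.w) x ≠ 0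

lemma Rv_zero (x : Fin N → ℝ) : C.Rv 0 x = 1 := by
  unfold Rv
  ring

lemma sv_zero (x : Fin N → ℝ) : C.sv 0 x = aeval x C.w := by
  unfold sv
  rw [Rv_zero, Real.sqrt_one, mul_one]

lemma ok_zero {x : Fin N → ℝ} : C.Ok 0 x ↔ C.Ok0 x := by
  unfold Ok Ok0
  rw [Rv_zero, sv_zero]
  constructor
  · rintro ⟨h1, -, h3, -⟩
    exact ⟨h1, h3⟩
  · rintro ⟨h1, h3⟩
    exact ⟨h1, one_pos, h3, h3⟩

lemma psi_zero {x : Fin N → ℝ} : C.psi (0, x) = x := by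
  funext j
  unfold psi
  simp only [sv_zero]
  ring

/-- a point of the curve -/
lemma sv_sq {x : Fin N → ℝ} (hx : RealPt p g x) {t : ℝ} (hw : (aeval x C.w : ℝ) ≠ 0)
    (hR : 0 ≤ C.Rv t x) :
    C.sv t x ^ 2 = ∑ k : Fin 5, (aeval x (C.q k) : ℝ) * t ^ (k : ℕ) := by
  unfold sv
  rw [mul_pow, Real.sq_sqrt hR]
  unfold Rv
  rw [mul_add, mul_one, mul_comm ((aeval x C.w : ℝ) ^ 2), mul_assoc,
    inv_mul_cancel₀ (pow_ne_zero 2 hw), mul_one, C.base x hx]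
  simp only [Fin.sum_univ_succ, Fin.sum_univ_zero]
  norm_num
  ring_nf
  rfl

lemma psi_eq {x : Fin N → ℝ} (hx : RealPt p g x) {t : ℝ} (h : C.Ok t x) (j : Fin N) :
    C.psi (t, x) j = ev (C.P j) t (C.sv t x) x / ev C.D t (C.sv t x) x := by
  unfold psi
  have h1 : ev (C.P j) 0 (aeval x C.w) x = x j * ev C.D 0 (aeval x C.w) x :=
    C.start x hx h.1 h.2.2.2 j
  have h2 : x j * ev C.D 0 (aeval x C.w) x * (ev C.D 0 (aeval x C.w) x)⁻¹ = x j := by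
    rw [mul_assoc, mul_inv_cancel₀ h.2.2.2, mul_one]
  simp only
  rw [h1, h2, div_eq_mul_inv]
  ring

lemma psi_mem {x : Fin N → ℝ} (hx : RealPt p g x) {t : ℝ} (h : C.Ok t x) (i : Fin c) :
    (aeval (C.psi (t, x)) (p i) : ℝ) = 0 := by
  have h1 := C.maps x t (C.sv t x) hx (C.sv_sq hx h.1 h.2.1.le) h.2.2.1 i
  have h2 : C.psi (t, x) = fun j => ev (C.P j) t (C.sv t x) x / ev C.D t (C.sv t x) x :=
    funext fun j => C.psi_eq hx h j
  rw [h2]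
  exact h1

section analytic

lemma an_aeval {E : Type*} [NormedAddCommGroup E] [NormedSpace ℝ E] {ι : Type*} {f : E → ι → ℝ}
    {z : E} (hf : ∀ i, AnalyticAt ℝ (fun a => f a i) z) (q : MvPolynomial ι ℚ) :
    AnalyticAt ℝ (fun a => (aeval (f a) q : ℝ)) z :=
  AnalyticAt.aeval_mvPolynomial hf q

lemma an_snd (a : ℝ × (Fin N → ℝ)) (i : Fin N) :
    AnalyticAt ℝ (fun b : ℝ × (Fin N → ℝ) => b.2 i) a :=
  ((ContinuousLinearMap.proj (R := ℝ) (φ := fun _ : Fin N => ℝ) i).comp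
    (ContinuousLinearMap.snd ℝ ℝ (Fin N → ℝ))).analyticAt a

lemma an_Rv {a : ℝ × (Fin N → ℝ)} (hw : (aeval a.2 C.w : ℝ) ≠ 0) :
    AnalyticAt ℝ (fun b : ℝ × (Fin N → ℝ) => C.Rv b.1 b.2) a := by
  have h1 : AnalyticAt ℝ (fun b : ℝ × (Fin N → ℝ) => b.1) a := analyticAt_fst
  have h2 : ∀ q : MvPolynomial (Fin N) ℚ,
      AnalyticAt ℝ (fun b : ℝ × (Fin N → ℝ) => (aeval b.2 q : ℝ)) a :=
    fun q => an_aeval (an_snd a) q
  unfold Rv
  refine analyticAt_const.add (((((h2 _).mul h1).add ((h2 _).mul (h1.pow 2))).add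
    ((h2 _).mul (h1.pow 3))).add ((h2 _).mul (h1.pow 4)) |>.mul ?_)
  exact ((h2 C.w).pow 2).inv (pow_ne_zero 2 hw)

lemma an_sv {a : ℝ × (Fin N → ℝ)} (hw : (aeval a.2 C.w : ℝ) ≠ 0) (hR : 0 < C.Rv a.1 a.2) :
    AnalyticAt ℝ (fun b : ℝ × (Fin N → ℝ) => C.sv b.1 b.2) a := by
  have h1 : AnalyticAt ℝ Real.sqrt (C.Rv a.1 a.2) :=
    (Real.contDiffAt_sqrt hR.ne').analyticAt
  unfold sv
  refine (an_aeval (an_snd a) C.w).mul ?_
  exact AnalyticAt.fun_comp (g := Real.sqrt) (f := fun b : ℝ × (Fin N → ℝ) => C.Rv b.1 b.2)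
    h1 (C.an_Rv hw)

lemma an_ev (f : MvPolynomial (Fin 2 ⊕ Fin N) ℚ) {E : Type*} [NormedAddCommGroup E]
    [NormedSpace ℝ E] {t s : E → ℝ} {x : E → Fin N → ℝ} {a : E} (ht : AnalyticAt ℝ t a)
    (hs : AnalyticAt ℝ s a) (hx : ∀ i, AnalyticAt ℝ (fun b => x b i) a) :
    AnalyticAt ℝ (fun b => ev f (t b) (s b) (x b)) a := by
  unfold ev
  refine an_aeval (fun i => ?_) f
  rcases i with i | i
  · fin_cases i
    · exact ht
    · exact hs
  · exact hx i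

lemma an_psi {a : ℝ × (Fin N → ℝ)} (h : C.Ok a.1 a.2) : AnalyticAt ℝ C.psi a := by
  obtain ⟨hw, hR, hD, hD0⟩ := h
  have h1 : AnalyticAt ℝ (fun b : ℝ × (Fin N → ℝ) => b.1) a := analyticAt_fst
  have h2 := C.an_sv hw hR
  have h3 : AnalyticAt ℝ (fun b : ℝ × (Fin N → ℝ) => (aeval b.2 C.w : ℝ)) a :=
    an_aeval (an_snd a) C.w
  have h0 : AnalyticAt ℝ (fun _ : ℝ × (Fin N → ℝ) => (0 : ℝ)) a := analyticAt_const
  rw [analyticAt_pi_iff]
  intro j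
  unfold psi
  refine (an_snd a j).add (AnalyticAt.sub ?_ ?_)
  · exact (an_ev _ h1 h2 (an_snd a)).mul ((an_ev _ h1 h2 (an_snd a)).inv hD)
  · exact (an_ev _ h0 h3 (an_snd a)).mul ((an_ev _ h0 h3 (an_snd a)).inv hD0)

lemma ok_nhds {a : ℝ × (Fin N → ℝ)} (h : C.Ok a.1 a.2) : ∀ᶠ b in 𝓝 a, C.Ok b.1 b.2 := by
  obtain ⟨hw, hR, hD, hD0⟩ := h
  have h1 : AnalyticAt ℝ (fun b : ℝ × (Fin N → ℝ) => b.1) a := analyticAt_fst
  have h2 := C.an_sv hw hR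
  have h3 : AnalyticAt ℝ (fun b : ℝ × (Fin N → ℝ) => (aeval b.2 C.w : ℝ)) a :=
    an_aeval (an_snd a) C.w
  have h0 : AnalyticAt ℝ (fun _ : ℝ × (Fin N → ℝ) => (0 : ℝ)) a := analyticAt_const
  exact (h3.continuousAt.eventually_ne hw).and
    (((C.an_Rv hw).continuousAt.eventually_const_lt hR).and
      (((an_ev C.D h1 h2 (an_snd a)).continuousAt.eventually_ne hD).and
        ((an_ev C.D h0 h3 (an_snd a)).continuousAt.eventually_ne hD0)))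

lemma ok0_nhds {x : Fin N → ℝ} (h : C.Ok0 x) : ∀ᶠ y in 𝓝 x, C.Ok0 y := by
  have h1 := C.ok_nhds (a := (0, x)) (C.ok_zero.2 h)
  have h2 : ContinuousAt (fun y : Fin N → ℝ => ((0 : ℝ), y)) x :=
    continuousAt_const.prodMk continuousAt_id
  filter_upwards [h2.eventually h1] with y hy
  exact C.ok_zero.1 hy

end analytic

/-- The tangent vector of the curve through `x` at `x`, multiplied by `2 w D`. -/
noncomputable def tangent (x : Fin N → ℝ) : Fin N → ℝ := fun j =>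
  2 * (aeval x C.w : ℝ) * (ev (pderiv (Sum.inl 0) (C.P j)) 0 (aeval x C.w) x -
      x j * ev (pderiv (Sum.inl 0) C.D) 0 (aeval x C.w) x) +
    (aeval x (C.q 1) : ℝ) * (ev (pderiv (Sum.inl 1) (C.P j)) 0 (aeval x C.w) x -
      x j * ev (pderiv (Sum.inl 1) C.D) 0 (aeval x C.w) x)

lemma deriv_Rv (x : Fin N → ℝ) :
    HasDerivAt (fun t => C.Rv t x) ((aeval x (C.q 1) : ℝ) * ((aeval x C.w : ℝ) ^ 2)⁻¹) 0 := by
  unfold Rv
  have h := ((((hasDerivAt_id (0 : ℝ)).const_mul (aeval x (C.q 1) : ℝ)).add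
    ((hasDerivAt_pow 2 (0 : ℝ)).const_mul (aeval x (C.q 2) : ℝ))).add
    ((hasDerivAt_pow 3 (0 : ℝ)).const_mul (aeval x (C.q 3) : ℝ))).add
    ((hasDerivAt_pow 4 (0 : ℝ)).const_mul (aeval x (C.q 4) : ℝ))
  have h2 := (h.mul_const (((aeval x C.w : ℝ) ^ 2)⁻¹)).const_add 1
  refine h2.congr_deriv ?_
  norm_num

lemma deriv_sv {x : Fin N → ℝ} (hw : (aeval x C.w : ℝ) ≠ 0) :
    HasDerivAt (fun t => C.sv t x) ((aeval x (C.q 1) : ℝ) / (2 * (aeval x C.w : ℝ))) 0 := by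
  unfold sv
  have h1 := (C.deriv_Rv x).sqrt (by rw [C.Rv_zero]; exact one_ne_zero)
  refine (h1.const_mul (aeval x C.w : ℝ)).congr_deriv ?_
  rw [C.Rv_zero, Real.sqrt_one]
  field_simp

lemma deriv_ev (f : MvPolynomial (Fin 2 ⊕ Fin N) ℚ) {x : Fin N → ℝ}
    (hw : (aeval x C.w : ℝ) ≠ 0) :
    HasDerivAt (fun t => ev f t (C.sv t x) x) (ev (pderiv (Sum.inl 0) f) 0 (aeval x C.w) x +
      (aeval x (C.q 1) : ℝ) / (2 * (aeval x C.w : ℝ)) *
        ev (pderiv (Sum.inl 1) f) 0 (aeval x C.w) x) 0 := by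
  have key : ∀ (h : MvPolynomial (Fin 2 ⊕ Fin N) ℚ) (z : Fin 2 ⊕ Fin N → ℝ),
      (aeval z h : ℝ) = eval z (map (algebraMap ℚ ℝ) h) := by
    intro h z
    rw [aeval_def, eval₂_eq_eval_map]
  have h1 := Pool.Agent.R70.OC.hasStrictFDerivAt_eval (map (algebraMap ℚ ℝ) f)
    (Sum.elim ![0, C.sv 0 x] x)
  have h2 : HasDerivAt (fun t => (Sum.elim ![t, C.sv t x] x : Fin 2 ⊕ Fin N → ℝ))
      (Sum.elim ![1, (aeval x (C.q 1) : ℝ) / (2 * (aeval x C.w : ℝ))] 0) 0 := by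
    rw [hasDerivAt_pi]
    intro i
    rcases i with i | i
    · fin_cases i
      · exact hasDerivAt_id 0
      · exact C.deriv_sv hw
    · exact hasDerivAt_const _ _
  have h3 := h1.hasFDerivAt.comp_hasDerivAt (0 : ℝ) h2
  have h4 : (fun t => ev f t (C.sv t x) x) =
      (fun y : Fin 2 ⊕ Fin N → ℝ => eval y (map (algebraMap ℚ ℝ) f)) ∘
        (fun t => (Sum.elim ![t, C.sv t x] x : Fin 2 ⊕ Fin N → ℝ)) := by
    funext t
    exact key f _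
  rw [h4]
  refine h3.congr_deriv ?_
  rw [Pool.Agent.R70.OC.grad_apply, Fintype.sum_sum_type]
  simp only [Sum.elim_inl, Sum.elim_inr, Pi.zero_apply, mul_zero, Finset.sum_const_zero, add_zero,
    Fin.sum_univ_two, Matrix.cons_val_zero, Matrix.cons_val_one, mul_one, C.sv_zero]
  unfold ev
  rw [key, key, pderiv_map, pderiv_map]
  ring

lemma deriv_psi {x : Fin N → ℝ} (hx : RealPt p g x) (h : C.Ok0 x) :
    HasDerivAt (fun t => C.psi (t, x))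
      ((2 * (aeval x C.w : ℝ) * ev C.D 0 (aeval x C.w) x)⁻¹ • C.tangent x) 0 := by
  obtain ⟨hw, hD⟩ := h
  rw [hasDerivAt_pi]
  intro j
  have hP := C.deriv_ev (C.P j) hw
  have hDd := C.deriv_ev C.D hw
  have hD' : ev C.D 0 (C.sv 0 x) x ≠ 0 := by rw [C.sv_zero]; exact hD
  have h1 := (hP.mul (hDd.inv hD')).sub_const
    (ev (C.P j) 0 (aeval x C.w) x * (ev C.D 0 (aeval x C.w) x)⁻¹)
  have h2 := h1.const_add (x j)
  have h3 : (fun t => C.psi (t, x) j) = fun t => x j + ((ev (C.P j) t (C.sv t x) x) *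
      (ev C.D t (C.sv t x) x)⁻¹ -
      ev (C.P j) 0 (aeval x C.w) x * (ev C.D 0 (aeval x C.w) x)⁻¹) := rfl
  rw [h3]
  refine h2.congr_deriv ?_
  have hs : ev (C.P j) 0 (aeval x C.w) x = x j * ev C.D 0 (aeval x C.w) x := C.start x hx hw hD j
  have hi : (fun t => ev C.D t (C.sv t x) x)⁻¹ 0 = (ev C.D 0 (C.sv 0 x) x)⁻¹ := rfl
  rw [hi]
  simp only [Pi.smul_apply, smul_eq_mul, C.sv_zero, tangent, hs]
  generalize ev C.D 0 (aeval x C.w) x = d at hD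
  generalize (aeval x C.w : ℝ) = w at hw
  field_simp
  ring

/-- the tangent vector is a tangent vector -/
lemma tangent_mem {x : Fin N → ℝ} (hx : RealPt p g x) (h : C.Ok0 x) (i : Fin c) :
    ∑ j, (aeval x (pderiv j (p i)) : ℝ) * C.tangent x j = 0 := by
  have h1 := C.deriv_psi hx h
  have key : ∀ (h : MvPolynomial (Fin N) ℚ) (z : Fin N → ℝ),
      (aeval z h : ℝ) = eval z (map (algebraMap ℚ ℝ) h) := by
    intro h z
    rw [aeval_def, eval₂_eq_eval_map]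
  have h2 := Pool.Agent.R70.OC.hasStrictFDerivAt_eval (map (algebraMap ℚ ℝ) (p i))
    (C.psi (0, x))
  have h3 := h2.hasFDerivAt.comp_hasDerivAt (0 : ℝ) h1
  have h4 : ∀ᶠ t : ℝ in 𝓝 0, C.Ok t x := by
    have h5 := C.ok_nhds (a := (0, x)) (C.ok_zero.2 h)
    have h6 : ContinuousAt (fun t : ℝ => (t, x)) 0 := continuousAt_id.prodMk continuousAt_const
    exact h6.eventually h5
  have h5 : ((fun y : Fin N → ℝ => eval y (map (algebraMap ℚ ℝ) (p i))) ∘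
      fun t => C.psi (t, x)) =ᶠ[𝓝 0] fun _ => (0 : ℝ) := by
    filter_upwards [h4] with t ht
    have := C.psi_mem hx ht i
    rw [key] at this
    exact this
  have h6 := h3.congr_of_eventuallyEq h5.symm
  have h7 := h6.unique (hasDerivAt_const (0 : ℝ) (0 : ℝ))
  rw [C.psi_zero, Pool.Agent.R70.OC.grad_apply] at h7
  have h8 : (2 * (aeval x C.w : ℝ) * ev C.D 0 (aeval x C.w) x)⁻¹ ≠ 0 :=
    inv_ne_zero (mul_ne_zero (mul_ne_zero two_ne_zero h.1) h.2)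
  apply mul_left_cancel₀ h8
  rw [mul_zero, Finset.mul_sum]
  refine Eq.trans (Finset.sum_congr rfl fun j _ => ?_) h7
  rw [Pi.smul_apply, smul_eq_mul, pderiv_map, ← key]
  ring

/-- the differential of the move -/
lemma fderiv_psi {x : Fin N → ℝ} (hx : RealPt p g x) (h : C.Ok0 x) :
    ∃ L : ℝ × (Fin N → ℝ) →L[ℝ] (Fin N → ℝ), HasStrictFDerivAt C.psi L (0, x) ∧
      ∀ τ ζ, L (τ, ζ) = τ • ((2 * (aeval x C.w : ℝ) * ev C.D 0 (aeval x C.w) x)⁻¹ • C.tangent x) +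
        ζ := by
  have h1 := (C.an_psi (a := (0, x)) (C.ok_zero.2 h)).hasStrictFDerivAt
  refine ⟨_, h1, fun τ ζ => ?_⟩
  set L := fderiv ℝ C.psi (0, x) with hL
  have e : ((τ, ζ) : ℝ × (Fin N → ℝ)) = τ • ((1 : ℝ), (0 : Fin N → ℝ)) + (0, ζ) := by
    simp
  rw [e, map_add, map_smul]
  congr 1
  · congr 1
    have h2 : HasDerivAt (fun t : ℝ => (t, x)) ((1 : ℝ), (0 : Fin N → ℝ)) 0 :=
      (hasDerivAt_id (0 : ℝ)).prodMk (hasDerivAt_const (0 : ℝ) x)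
    have h3 := h1.hasFDerivAt.comp_hasDerivAt (0 : ℝ) h2
    exact h3.unique (C.deriv_psi hx h)
  · have h2 : HasFDerivAt (fun y : Fin N → ℝ => ((0 : ℝ), y))
        ((ContinuousLinearMap.inr ℝ ℝ (Fin N → ℝ))) x :=
      (ContinuousLinearMap.inr ℝ ℝ (Fin N → ℝ)).hasFDerivAt
    have h3 := h1.hasFDerivAt.comp x h2
    have h4 : C.psi ∘ (fun y : Fin N → ℝ => ((0 : ℝ), y)) = id := funext fun y => C.psi_zero
    rw [h4] at h3
    have h5 := h3.unique (hasFDerivAt_id x)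
    have h6 := congrArg (fun M : (Fin N → ℝ) →L[ℝ] (Fin N → ℝ) => M ζ) h5
    exact h6

end Curves

end Pool.Agent.D0H62.EF
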