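import Pool.Agent.D0H62.EF.QE
import Pool.Agent.D0H62.EF.Fam
import Pool.Agent.Y718.GX

/-!
# Families of curves through the points of a variety: integrality and one move
-/

set_option autoImplicit false
set_option linter.unusedSectionVars false
set_option linter.unusedVariables false

open MvPolynomial Filter Topology Pool.Agent.Y718.X Pool.Agent.Y720.MZ

namespace Pool.Agent.D0H62.EF

section cong

variable {v : AbsoluteValue ℚ ℝ}

/-- integral and congruent -/
def Cg (v : AbsoluteValue ℚ ℝ) (a b : ℚ) : Prop := v a ≤ 1 ∧ v b ≤ 1 ∧ v (a - b) < 1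

lemma Cg.refl {a : ℚ} (h : v a ≤ 1) : Cg v a a :=
  ⟨h, h, by rw [sub_self, map_zero]; exact one_pos⟩

lemma Cg.add (hv : IsNonarchimedean v) {a b a' b' : ℚ} (h : Cg v a b) (h' : Cg v a' b') :
    Cg v (a + a') (b + b') := by
  refine ⟨na_add hv h.1 h'.1, na_add hv h.2.1 h'.2.1, ?_⟩
  have : a + a' - (b + b') = (a - b) + (a' - b') := by ring
  rw [this]
  exact na_lt hv h.2.2 h'.2.2

lemma Cg.mul (hv : IsNonarchimedean v) {a b a' b' : ℚ} (h : Cg v a b) (h' : Cg v a' b') :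
    Cg v (a * a') (b * b') := by
  refine ⟨na_mul_le h.1 h'.1, na_mul_le h.2.1 h'.2.1, ?_⟩
  have : a * a' - b * b' = a * (a' - b') + b' * (a - b) := by ring
  rw [this]
  exact na_lt hv (na_mul_lt h.1 h'.2.2) (na_mul_lt h'.2.1 h.2.2)

lemma Cg.pow (hv : IsNonarchimedean v) {a b : ℚ} (h : Cg v a b) (n : ℕ) :
    Cg v (a ^ n) (b ^ n) := by
  induction n with
  | zero =>
    rw [pow_zero, pow_zero]
    exact Cg.refl (by rw [map_one])
  | succ n ih =>
    rw [pow_succ, pow_succ]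
    exact ih.mul hv h

lemma Cg.sum (hv : IsNonarchimedean v) {α : Type*} (s : Finset α) {a b : α → ℚ}
    (h : ∀ i ∈ s, Cg v (a i) (b i)) : Cg v (∑ i ∈ s, a i) (∑ i ∈ s, b i) := by
  classical
  induction s using Finset.induction_on with
  | empty =>
    rw [Finset.sum_empty, Finset.sum_empty]
    exact Cg.refl (by rw [map_zero]; exact zero_le_one)
  | insert i s hi ih =>
    rw [Finset.sum_insert hi, Finset.sum_insert hi]
    exact (h i (Finset.mem_insert_self _ _)).add hv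
      (ih fun j hj => h j (Finset.mem_insert_of_mem hj))

lemma Cg.prod (hv : IsNonarchimedean v) {α : Type*} (s : Finset α) {a b : α → ℚ}
    (h : ∀ i ∈ s, Cg v (a i) (b i)) : Cg v (∏ i ∈ s, a i) (∏ i ∈ s, b i) := by
  classical
  induction s using Finset.induction_on with
  | empty =>
    rw [Finset.prod_empty, Finset.prod_empty]
    exact Cg.refl (by rw [map_one])
  | insert i s hi ih =>
    rw [Finset.prod_insert hi, Finset.prod_insert hi]
    exact (h i (Finset.mem_insert_self _ _)).mul hv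
      (ih fun j hj => h j (Finset.mem_insert_of_mem hj))

lemma Cg.eval (hv : IsNonarchimedean v) {ι : Type*} {f : MvPolynomial ι ℚ}
    (hf : ∀ d, v (f.coeff d) ≤ 1) {z z' : ι → ℚ} (h : ∀ i, Cg v (z i) (z' i)) :
    Cg v (MvPolynomial.eval z f) (MvPolynomial.eval z' f) := by
  rw [eval_eq, eval_eq]
  refine Cg.sum hv _ fun d _ => ?_
  exact (Cg.refl (hf d)).mul hv (Cg.prod hv _ fun i _ => (h i).pow hv _)

lemma Cg.unit (hv : IsNonarchimedean v) {a b : ℚ} (h : Cg v a b) (hb : v b = 1) : v a = 1 :=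
  unit_of_close hv hb h.2.2

lemma Cg.sub (hv : IsNonarchimedean v) {a b a' b' : ℚ} (h : Cg v a b) (h' : Cg v a' b') :
    Cg v (a - a') (b - b') := by
  refine ⟨na_sub hv h.1 h'.1, na_sub hv h.2.1 h'.2.1, ?_⟩
  have : a - a' - (b - b') = (a - b) + -(a' - b') := by ring
  rw [this]
  exact na_lt hv h.2.2 (by rw [v.map_neg]; exact h'.2.2)

lemma Cg.nat (hv : IsNonarchimedean v) (n : ℕ) [n.AtLeastTwo] :
    Cg v (OfNat.ofNat n) (OfNat.ofNat n) :=
  Cg.refl (by exact_mod_cast na_nat hv n)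

/-- the discriminants of congruent polynomials are congruent -/
lemma Cg.db (hv : IsNonarchimedean v) {q q' : Polynomial ℚ}
    (h : ∀ i : Fin 5, Cg v (q.coeff (i : ℕ)) (q'.coeff (i : ℕ))) : Cg v (Db q) (Db q') := by
  have c0 : Cg v (q.coeff 0) (q'.coeff 0) := h 0
  have c1 : Cg v (q.coeff 1) (q'.coeff 1) := h 1
  have c2 : Cg v (q.coeff 2) (q'.coeff 2) := h 2
  have c3 : Cg v (q.coeff 3) (q'.coeff 3) := h 3
  have c4 : Cg v (q.coeff 4) (q'.coeff 4) := h 4
  have n4 : Cg v 4 4 := Cg.nat hv 4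
  have n27 : Cg v 27 27 := Cg.nat hv 27
  have n18 : Cg v 18 18 := Cg.nat hv 18
  have a : Cg v (Pool.Agent.Y718.X.Ab q) (Pool.Agent.Y718.X.Ab q') := c2
  have b : Cg v (Bb q) (Bb q') := (c1.mul hv c3).sub hv ((n4.mul hv c0).mul hv c4)
  have c : Cg v (Cb q) (Cb q') := (((c1.pow hv 2).mul hv c4).add hv (c0.mul hv (c3.pow hv 2))).sub
    hv (((n4.mul hv c0).mul hv c2).mul hv c4)
  unfold Db dsc
  exact (((((a.pow hv 2).mul hv (b.pow hv 2)).sub hv (n4.mul hv (b.pow hv 3))).sub hv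
    ((n4.mul hv (a.pow hv 3)).mul hv c)).sub hv (n27.mul hv (c.pow hv 2))).add hv
    (((n18.mul hv a).mul hv b).mul hv c)

end cong

variable {N c : ℕ} {p : Fin c → MvPolynomial (Fin N) ℚ} {g : MvPolynomial (Fin N) ℚ}

/-- rational points as real points -/
def toR (x : Fin N → ℚ) : Fin N → ℝ := fun j => (x j : ℝ)

lemma aeval_cast {ι : Type*} (f : MvPolynomial ι ℚ) (x : ι → ℚ) :
    (aeval (fun j => ((x j : ℚ) : ℝ)) f : ℝ) = ((eval x f : ℚ) : ℝ) := by
  have h := MvPolynomial.aeval_algebraMap_apply ℝ x f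
  have h2 : (aeval x f : ℚ) = eval x f := by rw [MvPolynomial.aeval_eq_eval]
  rw [h2] at h
  exact h

lemma aeval_toR (f : MvPolynomial (Fin N) ℚ) (x : Fin N → ℚ) :
    (aeval (toR x) f : ℝ) = ((eval x f : ℚ) : ℝ) := aeval_cast f x

lemma elim_cast (t s : ℚ) (x : Fin N → ℚ) :
    (Sum.elim ![(t : ℝ), (s : ℝ)] (toR x) : Fin 2 ⊕ Fin N → ℝ) =
      fun j => ((Sum.elim ![t, s] x j : ℚ) : ℝ) := by
  funext j
  rcases j with j | j
  · fin_cases j <;> rfl
  · rfl

lemma ev_toR (f : MvPolynomial (Fin 2 ⊕ Fin N) ℚ) (t s : ℚ) (x : Fin N → ℚ) :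
    Curves.ev f t s (toR x) = ((eval (Sum.elim ![t, s] x) f : ℚ) : ℝ) := by
  unfold Curves.ev
  rw [elim_cast, aeval_cast]

namespace Curves

variable (C : Curves p g)

/-- the quartic polynomial at a rational point -/
noncomputable def quartic (x : Fin N → ℚ) : Polynomial ℚ :=
  ∑ k : Fin 5, Polynomial.C (eval x (C.q k)) * Polynomial.X ^ (k : ℕ)

/-- the quartic polynomial with polynomial coefficients -/
noncomputable def qq : Polynomial (MvPolynomial (Fin N) ℚ) :=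
  ∑ k : Fin 5, Polynomial.C (C.q k) * Polynomial.X ^ (k : ℕ)

lemma qq_map (x : Fin N → ℚ) : C.qq.map (eval x) = C.quartic x := by
  unfold qq quartic
  rw [Polynomial.map_sum]
  simp

lemma quartic_coeff (x : Fin N → ℚ) (k : Fin 5) :
    (C.quartic x).coeff (k : ℕ) = eval x (C.q k) := by
  unfold quartic
  rw [Polynomial.finsetSum_coeff, Finset.sum_eq_single k]
  · simp
  · intro j _ hj
    rw [Polynomial.coeff_C_mul_X_pow, if_neg]
    intro h
    exact hj (Fin.ext h.symm)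
  · simp

lemma map_Db' {S T : Type*} [CommRing S] [CommRing T] (φ : S →+* T) (q : Polynomial S) :
    Db (q.map φ) = φ (Db q) := by
  unfold Db
  rw [map_Ab, map_Bb, map_Cb]
  simp [dsc, map_ofNat]

/-- rational curves -/
def Rat (C : Curves p g) : Prop := ∀ k : Fin 5, k ≠ 0 → C.q k = 0

/-- nondegenerate rational points -/
def Nd (C : Curves p g) (x : Fin N → ℚ) : Prop := C.Rat ∨ Inf (C.quartic x)

/-- the torsion polynomial -/
noncomputable def tor (C : Curves p g) (M : ℕ) : MvPolynomial (Fin N) ℚ :=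
  Gd (Ab C.qq) (Bb C.qq) (Cb C.qq) (XB C.qq) (ZB C.qq) M

lemma eval_tor (M : ℕ) (x : Fin N → ℚ) : eval x (C.tor M) =
    Gd (Ab (C.quartic x)) (Bb (C.quartic x)) (Cb (C.quartic x)) (XB (C.quartic x))
      (ZB (C.quartic x)) M := by
  unfold tor
  rw [← C.qq_map x, map_Ab, map_Bb, map_Cb, map_XB, map_ZB, map_Gd]

lemma tor_ne {x : Fin N → ℚ} (h : Inf (C.quartic x)) (M : ℕ) : eval x (C.tor M) ≠ 0 := by
  rw [eval_tor]
  obtain ⟨hD0, w, hw0, hw, hinf⟩ := h
  have hns := ns_of_dsc (x := xs w ((C.quartic x).coeff 1) ((C.quartic x).coeff 2))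
    (y := ys w ((C.quartic x).coeff 1) ((C.quartic x).coeff 2) ((C.quartic x).coeff 3)) hD0 (by
    rw [bb_eq hw, cb_eq hw]
    exact s_eqn hw0)
  exact Gd_ne hns (xs_ZB _ w hw0 hw).1 (xs_ZB _ w hw0 hw).2 (hinf hns) M

end Curves

variable {κ : Type} [Finite κ]

/-- integrality of the coefficients -/
structure Coef (v : AbsoluteValue ℚ ℝ) (C : κ → Curves p g) : Prop where
  hg : ∀ d, v (g.coeff d) ≤ 1
  hw : ∀ k d, v ((C k).w.coeff d) ≤ 1
  hq : ∀ k i d, v (((C k).q i).coeff d) ≤ 1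
  hP : ∀ k j d, v (((C k).P j).coeff d) ≤ 1
  hD : ∀ k d, v ((C k).D.coeff d) ≤ 1

/-- good reduction -/
structure GPt (v : AbsoluteValue ℚ ℝ) (C : κ → Curves p g) (x : Fin N → ℚ) : Prop where
  int : ∀ j, v (x j) ≤ 1
  g : v (eval x g) = 1
  w : ∀ k, v (eval x (C k).w) = 1
  D : ∀ k, v (eval (Sum.elim ![0, eval x (C k).w] x) (C k).D) = 1
  B : ∀ k, (C k).Rat ∨ v (Db ((C k).quartic x)) = 1

variable {v : AbsoluteValue ℚ ℝ} {pr : ℕ}

lemma cg_elim {t s t' s' : ℚ} {x x' : Fin N → ℚ} (ht : Cg v t t') (hs : Cg v s s')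
    (hx : ∀ j, Cg v (x j) (x' j)) (i : Fin 2 ⊕ Fin N) :
    Cg v ((Sum.elim ![t, s] x : Fin 2 ⊕ Fin N → ℚ) i)
      ((Sum.elim ![t', s'] x' : Fin 2 ⊕ Fin N → ℚ) i) := by
  rcases i with i | i
  · fin_cases i
    · exact ht
    · exact hs
  · exact hx i

/-- good reduction persists -/
lemma GPt.move (hv : IsNonarchimedean v) {C : κ → Curves p g} (hc : Coef v C) {x x' : Fin N → ℚ}
    (h : GPt v C x) (hx : ∀ j, v (x' j - x j) < 1) : GPt v C x' := by
  have h1 : ∀ j, Cg v (x' j) (x j) := by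
    intro j
    refine ⟨?_, h.int j, hx j⟩
    have : x' j = x j + (x' j - x j) := by ring
    rw [this]
    exact na_add hv (h.int j) (hx j).le
  have hz : Cg v 0 0 := Cg.refl (by rw [map_zero]; exact zero_le_one)
  refine ⟨fun j => (h1 j).1, (Cg.eval hv hc.hg h1).unit hv h.g,
    fun k => (Cg.eval hv (hc.hw k) h1).unit hv (h.w k), fun k => ?_, fun k => ?_⟩
  · refine (Cg.eval hv (hc.hD k) (cg_elim hz (Cg.eval hv (hc.hw k) h1) h1)).unit hv (h.D k)
  · rcases h.B k with h2 | h2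
    · exact Or.inl h2
    · refine Or.inr ((Cg.db hv fun i => ?_).unit hv h2)
      rw [(C k).quartic_coeff, (C k).quartic_coeff]
      exact Cg.eval hv (hc.hq k i) h1

/-- nondegeneracy at points where the torsion polynomial does not vanish -/
lemma nd_of_tor (hp : Pl v pr) {C : κ → Curves p g} (hc : Coef v C) : ∃ M : ℕ,
    ∀ (x : Fin N → ℚ) (k : κ), RealPt p g (toR x) → GPt v C x →
      ((C k).Rat ∨ eval x ((C k).tor M) ≠ 0) → (C k).Nd x := by
  obtain ⟨M, hM⟩ := hp.torsion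
  refine ⟨M, fun x k hx hgp h => ?_⟩
  rcases h with h | h
  · exact Or.inl h
  rcases hgp.B k with hB | hB
  · exact Or.inl hB
  right
  set q := (C k).quartic x with hq
  have hDb : v (Db q) = 1 := hB
  have hw1 := hgp.w k
  have hw0 : eval x (C k).w ≠ 0 := by
    intro h0
    rw [h0, map_zero] at hw1
    exact zero_ne_one hw1
  have hw2 : (eval x (C k).w) ^ 2 = q.coeff 0 := by
    have h1 := (C k).base _ hx
    rw [aeval_toR, aeval_toR] at h1
    have h2 := (C k).quartic_coeff x 0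
    rw [hq]
    change (eval x (C k).w) ^ 2 = ((C k).quartic x).coeff ((0 : Fin 5) : ℕ)
    rw [h2]
    exact_mod_cast h1
  have hDq0 : Db q ≠ 0 := by
    intro h0
    rw [h0, map_zero] at hDb
    exact zero_ne_one hDb
  have hcf : ∀ i : Fin 5, v (q.coeff (i : ℕ)) ≤ 1 := by
    intro i
    rw [hq, (C k).quartic_coeff]
    exact (Cg.eval hp.na (hc.hq k i) fun j => Cg.refl (hgp.int j)).1
  have c0 : v (q.coeff 0) ≤ 1 := hcf 0
  have c1 : v (q.coeff 1) ≤ 1 := hcf 1
  have c2 : v (q.coeff 2) ≤ 1 := hcf 2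
  have c3 : v (q.coeff 3) ≤ 1 := hcf 3
  have c4 : v (q.coeff 4) ≤ 1 := hcf 4
  have n4 : v (4 : ℚ) ≤ 1 := by exact_mod_cast na_nat hp.na 4
  refine ⟨hDq0, eval x (C k).w, hw0, hw2, fun hns m hm hm0 => ?_⟩
  obtain ⟨m', hm'0, hm'N, hm'⟩ := hM (Ab q) (Bb q) (Cb q) c2
    (na_sub hp.na (na_mul_le c1 c3) (na_mul_le (na_mul_le n4 c0) c4))
    (na_sub hp.na (na_add hp.na (na_mul_le (na_pow_le c1 2) c4) (na_mul_le c0 (na_pow_le c3 2)))
      (na_mul_le (na_mul_le (na_mul_le n4 c0) c2) c4)) hDb _ m hm hm0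
  apply h
  rw [(C k).eval_tor]
  exact Gd_zero hns (xs_ZB q _ hw0 hw2).1 (xs_ZB q _ hw0 hw2).2 hm'0 hm'N hm'

end Pool.Agent.D0H62.EF
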