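import Pool.Agent.D0H62.EF.Move

/-!
# Families of curves through the points of a variety: compositions of moves
-/

set_option autoImplicit false
set_option linter.unusedSectionVars false
set_option linter.unusedVariables false

open MvPolynomial Filter Topology Pool.Agent.Y718.X Pool.Agent.Y720.MZ

namespace Pool.Agent.D0H62.EF

variable {N c : ℕ} {p : Fin c → MvPolynomial (Fin N) ℚ} {g : MvPolynomial (Fin N) ℚ}
  {κ : Type} [Fintype κ]

/-- the composition of the moves in a list -/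
noncomputable def comp (C : κ → Curves p g) : List κ → (κ → ℝ) × (Fin N → ℝ) → (Fin N → ℝ)
  | [], a => a.2
  | i :: l, a => (C i).psi (a.1 i, comp C l a)

/-- all moves are defined -/
def POk (C : κ → Curves p g) : List κ → (κ → ℝ) × (Fin N → ℝ) → Prop
  | [], a => (aeval a.2 g : ℝ) ≠ 0
  | i :: l, a => POk C l a ∧ (∀ τ : ℝ, 0 ≤ τ → τ ≤ 1 → (C i).Ok (τ * a.1 i) (comp C l a)) ∧
      (aeval (comp C (i :: l) a) g : ℝ) ≠ 0

lemma comp_zero (C : κ → Curves p g) (l : List κ) (x : Fin N → ℝ) : comp C l (0, x) = x := by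
  induction l with
  | nil => rfl
  | cons i l ih =>
    change (C i).psi ((0 : κ → ℝ) i, comp C l (0, x)) = x
    rw [ih, Pi.zero_apply, (C i).psi_zero]

lemma comp_real (C : κ → Curves p g) (l : List κ) (a : (κ → ℝ) × (Fin N → ℝ))
    (ha : ∀ i, (aeval a.2 (p i) : ℝ) = 0) (h : POk C l a) : RealPt p g (comp C l a) := by
  induction l with
  | nil => exact ⟨ha, h⟩
  | cons i l ih =>
    obtain ⟨h1, h2, h3⟩ := h
    have h4 := h2 1 zero_le_one le_rfl
    rw [one_mul] at h4
    exact ⟨fun j => (C i).psi_mem (ih h1) h4 j, h3⟩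

/-- the unit of the tangent vector -/
noncomputable def Curves.tv (C : Curves p g) (x : Fin N → ℝ) : Fin N → ℝ :=
  (2 * (aeval x C.w : ℝ) * Curves.ev C.D 0 (aeval x C.w) x)⁻¹ • C.tangent x

/-- the differential of a composition -/
lemma comp_deriv (C : κ → Curves p g) {x : Fin N → ℝ} (hx : RealPt p g x)
    (h0 : ∀ k, (C k).Ok0 x) (l : List κ) :
    ∃ L : (κ → ℝ) × (Fin N → ℝ) →L[ℝ] (Fin N → ℝ), HasStrictFDerivAt (comp C l) L (0, x) ∧
      ∀ τ ζ, L (τ, ζ) = (l.map fun k => τ k • (C k).tv x).sum + ζ := by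
  induction l with
  | nil =>
    refine ⟨ContinuousLinearMap.snd ℝ _ _, hasStrictFDerivAt_snd, fun τ ζ => ?_⟩
    simp
  | cons i l ih =>
    obtain ⟨L, hL, hL'⟩ := ih
    obtain ⟨M, hM, hM'⟩ := (C i).fderiv_psi hx (h0 i)
    let A : (κ → ℝ) × (Fin N → ℝ) →L[ℝ] ℝ :=
      (ContinuousLinearMap.proj (R := ℝ) (φ := fun _ : κ => ℝ) i).comp
        (ContinuousLinearMap.fst ℝ (κ → ℝ) (Fin N → ℝ))
    have hA : HasStrictFDerivAt (fun a : (κ → ℝ) × (Fin N → ℝ) => (a.1 i, comp C l a))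
        (A.prod L) (0, x) := A.hasStrictFDerivAt.prodMk hL
    have hM2 : HasStrictFDerivAt (C i).psi M
        ((fun a : (κ → ℝ) × (Fin N → ℝ) => (a.1 i, comp C l a)) (0, x)) := by
      simp only [comp_zero, Pi.zero_apply]
      exact hM
    have h := HasStrictFDerivAt.comp (g := (C i).psi)
      (f := fun a : (κ → ℝ) × (Fin N → ℝ) => (a.1 i, comp C l a)) (0, x) hM2 hA
    refine ⟨M.comp (A.prod L), h, fun τ ζ => ?_⟩
    change M (τ i, L (τ, ζ)) = _
    rw [hM', hL', List.map_cons, List.sum_cons, add_assoc]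
    rfl

lemma comp_cont (C : κ → Curves p g) {x : Fin N → ℝ} (hx : RealPt p g x)
    (h0 : ∀ k, (C k).Ok0 x) (l : List κ) : ContinuousAt (comp C l) (0, x) := by
  obtain ⟨L, hL, -⟩ := comp_deriv C hx h0 l
  exact hL.continuousAt

lemma aeval_cont (f : MvPolynomial (Fin N) ℚ) : Continuous fun y : Fin N → ℝ => (aeval y f : ℝ) := by
  have := Pool.Agent.R70.OC.continuous_eval' (map (algebraMap ℚ ℝ) f)
  refine this.congr fun y => ?_
  rw [aeval_def, eval₂_eq_eval_map]

/-- the domain contains a neighbourhood -/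
lemma pok_nhds (C : κ → Curves p g) {x : Fin N → ℝ} (hx : RealPt p g x)
    (h0 : ∀ k, (C k).Ok0 x) (l : List κ) : ∀ᶠ a in 𝓝 ((0 : κ → ℝ), x), POk C l a := by
  induction l with
  | nil =>
    have h1 : ContinuousAt (fun a : (κ → ℝ) × (Fin N → ℝ) => (aeval a.2 g : ℝ)) (0, x) :=
      ((aeval_cont g).comp continuous_snd).continuousAt
    exact h1.eventually_ne hx.2
  | cons i l ih =>
    have hg : ContinuousAt (fun a => (aeval (comp C (i :: l) a) g : ℝ)) (0, x) :=
      ContinuousAt.comp (g := fun y : Fin N → ℝ => (aeval y g : ℝ)) (aeval_cont g).continuousAt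
        (comp_cont C hx h0 (i :: l))
    have hg' := hg.eventually_ne (y := 0) (by rw [comp_zero]; exact hx.2)
    have h1 := (C i).ok_nhds (a := (0, x)) ((C i).ok_zero.2 (h0 i))
    rw [nhds_prod_eq] at h1
    obtain ⟨A, hA, B, hB, hAB⟩ := Filter.eventually_prod_iff.1 h1
    obtain ⟨δ, hδ, hδA⟩ := Metric.eventually_nhds_iff.1 hA
    have h2 : ∀ᶠ a in 𝓝 ((0 : κ → ℝ), x), B (comp C l a) := by
      have := comp_cont C hx h0 l
      rw [ContinuousAt, comp_zero] at this
      exact this.eventually hB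
    have h3 : ∀ᶠ a in 𝓝 ((0 : κ → ℝ), x), |a.1 i| < δ := by
      have h4 : ContinuousAt (fun a : (κ → ℝ) × (Fin N → ℝ) => |a.1 i|) (0, x) := by fun_prop
      exact h4.eventually_lt continuousAt_const (by simpa using hδ)
    filter_upwards [ih, hg', h2, h3] with a a1 a2 a3 a4
    refine ⟨a1, fun τ hτ0 hτ1 => ?_, a2⟩
    have hA' : A (τ * a.1 i) := by
      apply hδA
      rw [Real.dist_eq, sub_zero, abs_mul, abs_of_nonneg hτ0]
      calc τ * |a.1 i| ≤ 1 * |a.1 i| := by gcongr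
        _ < δ := by rw [one_mul]; exact a4
    exact hAB hA' a3

/-- **Compositions of moves.** -/
theorem move_comp (C : κ → Curves p g) {v : AbsoluteValue ℚ ℝ} {pr : ℕ} (hp : Pl v pr)
    (hwa : WA (algebraMap ℚ ℝ) v) (hco : Coef v C)
    {x : Fin N → ℚ} (hx : RealPt p g (toR x)) (hgp : GPt v C x) (hnd : ∀ k, (C k).Nd x)
    (t : κ → ℝ) (l : List κ) (hl : POk C l (t, toR x)) :
    ∀ U ∈ 𝓝 (comp C l (t, toR x)),
    ∃ x' : Fin N → ℚ, RealPt p g (toR x') ∧ GPt v C x' ∧ (∀ k, (C k).Nd x') ∧ toR x' ∈ U := by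
  induction l with
  | nil =>
    intro U hU
    exact ⟨x, hx, hgp, hnd, mem_of_mem_nhds hU⟩
  | cons i l ih =>
    intro U hU
    obtain ⟨h1, h2, h3⟩ := hl
    set y := comp C l (t, toR x) with hy
    have hok1 : (C i).Ok (t i) y := by
      have := h2 1 zero_le_one le_rfl
      rwa [one_mul] at this
    have hU' : interior U ∈ 𝓝 ((C i).psi (t i, y)) := interior_mem_nhds.2 hU
    have e1 : ∀ᶠ z in 𝓝 y, (C i).psi (t i, z) ∈ interior U := by
      have h4 := ((C i).an_psi (a := (t i, y)) hok1).continuousAt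
      have h5 : ContinuousAt (fun z : Fin N → ℝ => (t i, z)) y :=
        continuousAt_const.prodMk continuousAt_id
      have h6 : ContinuousAt (fun z => (C i).psi (t i, z)) y :=
        ContinuousAt.comp (g := (C i).psi) h4 h5
      exact h6 hU'
    have e2 : ∀ᶠ z in 𝓝 y, ∀ τ ∈ Set.Icc (0 : ℝ) 1, (C i).Ok (τ * t i) z := by
      refine isCompact_Icc.eventually_forall_of_forall_eventually
        (P := fun (z : Fin N → ℝ) (τ : ℝ) => (C i).Ok (τ * t i) z) fun τ hτ => ?_
      have h4 := (C i).ok_nhds (a := (τ * t i, y)) (h2 τ hτ.1 hτ.2)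
      have h5 : ContinuousAt (fun b : (Fin N → ℝ) × ℝ => (b.2 * t i, b.1)) (y, τ) := by fun_prop
      exact h5.eventually h4
    obtain ⟨x1, a1, a2, a3, a4, a5⟩ := ih h1 _ (e1.and e2)
    exact move C hp hwa hco a1 a2 a3 i (t := t i) (fun τ h0 h1 => a5 τ ⟨h0, h1⟩)
      (mem_interior_iff_mem_nhds.1 a4)

end Pool.Agent.D0H62.EF
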