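import Pool.Agent.D0H62.EF.Rs

/-!
# Hypersurfaces with plane sections of genus at most one: the families of curves
-/

set_option autoImplicit false
set_option linter.unusedSectionVars false
set_option linter.unusedVariables false

open MvPolynomial Filter Topology Pool.Agent.Y718.X Pool.Agent.Y720.MZ
open Pool.Agent.H581R2 Pool.Agent.TH729.SQ

namespace Pool.Agent.D0H62.EF

variable {N : ℕ}

/-- one equation -/
abbrev eqn (F : MvPolynomial (Fin N) ℚ) : Fin 1 → MvPolynomial (Fin N) ℚ := fun _ => F

lemma real_iff (F : MvPolynomial (Fin N) ℚ) (x : Fin N → ℝ) :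
    RealPt (eqn F) 1 x ↔ (aeval x F : ℝ) = 0 := by
  unfold RealPt
  constructor
  · rintro ⟨h, -⟩
    exact h 0
  · intro h
    exact ⟨fun _ => h, by rw [map_one]; exact one_ne_zero⟩

/-- the generic point -/
noncomputable abbrev gX : Fin N → MvPolynomial (Fin N) ℚ := fun j => X j

/-- constant vectors -/
noncomputable abbrev gc (a : Fin N → ℚ) : Fin N → MvPolynomial (Fin N) ℚ := fun j => C (a j)

/-- The tangent vector in the plane `⟨a, b⟩`. -/
noncomputable def tg {S : Type*} [CommRing S] [Algebra ℚ S] (F : MvPolynomial (Fin N) ℚ)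
    (z a b : Fin N → S) : Fin N → S := fun j => dr F z b * a j - dr F z a * b j

/-- the restriction to the plane `x + ⟨a, b⟩`, as a polynomial in the second coordinate -/
noncomputable def pI {S : Type*} [CommRing S] [Algebra ℚ S] (F : MvPolynomial (Fin N) ℚ)
    (z a b : Fin N → S) : Polynomial (Polynomial S) :=
  rs F z (fun j => Polynomial.C (a j) * Polynomial.X) (fun j => Polynomial.C (b j))

/-- the restriction to the lines through `x` in this plane -/
noncomputable def pII {S : Type*} [CommRing S] [Algebra ℚ S] (F : MvPolynomial (Fin N) ℚ)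
    (z a b : Fin N → S) : Polynomial (Polynomial S) :=
  rs F z (fun _ => 0)
    (fun j => Polynomial.C (tg F z a b j) + Polynomial.C (b j) * Polynomial.X)

/-- the quartic polynomial of the first kind -/
noncomputable def qI {S : Type*} [CommRing S] [Algebra ℚ S] (F : MvPolynomial (Fin N) ℚ)
    (z a b : Fin N → S) : Polynomial S :=
  (pI F z a b).coeff 1 ^ 2 - 4 * (pI F z a b).coeff 2 * (pI F z a b).coeff 0

/-- the quartic polynomial of the second kind -/
noncomputable def qII {S : Type*} [CommRing S] [Algebra ℚ S] (F : MvPolynomial (Fin N) ℚ)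
    (z a b : Fin N → S) : Polynomial S :=
  (pII F z a b).coeff 2 ^ 2 - 4 * (pII F z a b).coeff 3 * (pII F z a b).coeff 1

section map

variable {S S' : Type*} [CommRing S] [Algebra ℚ S] [CommRing S'] [Algebra ℚ S'] (φ : S →+* S')

lemma dr_map (F : MvPolynomial (Fin N) ℚ) (z v : Fin N → S) :
    φ (dr F z v) = dr F (fun j => φ (z j)) (fun j => φ (v j)) := by
  rw [← (ln_coeff F z v).2, ← (ln_coeff F _ _).2, ← ln_map, Polynomial.coeff_map]

lemma tg_map (F : MvPolynomial (Fin N) ℚ) (z a b : Fin N → S) (j : Fin N) :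
    φ (tg F z a b j) = tg F (fun j => φ (z j)) (fun j => φ (a j)) (fun j => φ (b j)) j := by
  unfold tg
  rw [map_sub, map_mul, map_mul, dr_map, dr_map]

lemma pI_map (F : MvPolynomial (Fin N) ℚ) (z a b : Fin N → S) :
    (pI F z a b).map (Polynomial.mapRingHom φ) =
      pI F (fun j => φ (z j)) (fun j => φ (a j)) (fun j => φ (b j)) := by
  unfold pI
  rw [rs_map]
  simp

lemma pII_map (F : MvPolynomial (Fin N) ℚ) (z a b : Fin N → S) :
    (pII F z a b).map (Polynomial.mapRingHom φ) =
      pII F (fun j => φ (z j)) (fun j => φ (a j)) (fun j => φ (b j)) := by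
  have h : ∀ j, φ (tg F z a b j) =
      tg F (fun j => φ (z j)) (fun j => φ (a j)) (fun j => φ (b j)) j := tg_map φ F z a b
  unfold pII
  rw [rs_map]
  simp only [Polynomial.map_zero, Polynomial.map_add, Polynomial.map_mul, Polynomial.map_C,
    Polynomial.map_X, h]

lemma qI_map (F : MvPolynomial (Fin N) ℚ) (z a b : Fin N → S) :
    (qI F z a b).map φ = qI F (fun j => φ (z j)) (fun j => φ (a j)) (fun j => φ (b j)) := by
  unfold qI
  rw [← pI_map φ]
  simp [Polynomial.coeff_map]

lemma qII_map (F : MvPolynomial (Fin N) ℚ) (z a b : Fin N → S) :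
    (qII F z a b).map φ = qII F (fun j => φ (z j)) (fun j => φ (a j)) (fun j => φ (b j)) := by
  unfold qII
  rw [← pII_map φ]
  simp [Polynomial.coeff_map]

end map

lemma ev_gX (x : Fin N → ℚ) : (fun j => eval x (gX (N := N) j)) = x := funext fun j => eval_X j

lemma ev_gc (x a : Fin N → ℚ) : (fun j => eval x (gc a j)) = a := funext fun j => eval_C _

lemma qI_eval (F : MvPolynomial (Fin N) ℚ) (x a b : Fin N → ℚ) :
    (qI F gX (gc a) (gc b)).map (eval x) = qI F x a b := by
  rw [qI_map, ev_gX, ev_gc, ev_gc]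

lemma qII_eval (F : MvPolynomial (Fin N) ℚ) (x a b : Fin N → ℚ) :
    (qII F gX (gc a) (gc b)).map (eval x) = qII F x a b := by
  rw [qII_map, ev_gX, ev_gc, ev_gc]

lemma pI_eval (F : MvPolynomial (Fin N) ℚ) (x a b : Fin N → ℚ) :
    (pI F gX (gc a) (gc b)).map (Polynomial.mapRingHom (eval x)) = pI F x a b := by
  rw [pI_map, ev_gX, ev_gc, ev_gc]

lemma pII_eval (F : MvPolynomial (Fin N) ℚ) (x a b : Fin N → ℚ) :
    (pII F gX (gc a) (gc b)).map (Polynomial.mapRingHom (eval x)) = pII F x a b := by
  rw [pII_map, ev_gX, ev_gc, ev_gc]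

/-- `F` is quadratic in the direction `b`, with a discriminant of degree at most four in the
direction `a`. -/
def KI (F : MvPolynomial (Fin N) ℚ) (a b : Fin N → ℚ) : Prop :=
  ∀ x : Fin N → ℚ, (pI F x a b).natDegree ≤ 2 ∧ (qI F x a b).natDegree ≤ 4

/-- `F` has degree at most `d` on all lines with directions in `⟨a, b⟩`. -/
def KD (d : ℕ) (F : MvPolynomial (Fin N) ℚ) (a b : Fin N → ℚ) : Prop :=
  ∀ (x : Fin N → ℚ) (r s : ℚ), (ln F x (fun j => r * a j + s * b j)).natDegree ≤ d

/-- real values of derivatives -/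
lemma dr_real (F : MvPolynomial (Fin N) ℚ) (x : Fin N → ℝ) (v : Fin N → ℚ) :
    (aeval x (dr F gX (gc v)) : ℝ) = dr F x (fun j => (v j : ℝ)) := by
  have h := dr_map ((aeval x : MvPolynomial (Fin N) ℚ →ₐ[ℚ] ℝ).toRingHom) F gX (gc v)
  refine h.trans ?_
  congr 1
  · funext j
    change (aeval x (X j : MvPolynomial (Fin N) ℚ) : ℝ) = x j
    rw [aeval_X]
  · funext j
    change (aeval x (C (v j) : MvPolynomial (Fin N) ℚ) : ℝ) = v j
    rw [algHom_C, eq_ratCast]

lemma tg_real (F : MvPolynomial (Fin N) ℚ) (x : Fin N → ℝ) (a b : Fin N → ℚ) (j : Fin N) :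
    (aeval x (tg F gX (gc a) (gc b) j) : ℝ) =
      tg F x (fun j => (a j : ℝ)) (fun j => (b j : ℝ)) j := by
  unfold tg
  rw [map_sub, map_mul, map_mul, dr_real, dr_real, algHom_C, algHom_C, eq_ratCast, eq_ratCast]

/-- the derivative is linear in the vector -/
lemma dr_lin {S : Type*} [CommRing S] [Algebra ℚ S] (F : MvPolynomial (Fin N) ℚ)
    (z a b : Fin N → S) (r s : S) :
    dr F z (fun j => r * a j - s * b j) = r * dr F z a - s * dr F z b := by
  unfold dr
  rw [Finset.mul_sum, Finset.mul_sum, ← Finset.sum_sub_distrib]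
  exact Finset.sum_congr rfl fun j _ => by ring

lemma dr_tg {S : Type*} [CommRing S] [Algebra ℚ S] (F : MvPolynomial (Fin N) ℚ)
    (z a b : Fin N → S) : dr F z (tg F z a b) = 0 := by
  unfold tg
  rw [dr_lin]
  ring

section kindI

variable {F : MvPolynomial (Fin N) ℚ} {a b : Fin N → ℚ}

/-- the coefficients of the restriction to a plane -/
lemma pI_coeff (F : MvPolynomial (Fin N) ℚ) (a b : Fin N → ℚ) :
    ((pI F gX (gc a) (gc b)).coeff 0).coeff 0 = F ∧
    ((pI F gX (gc a) (gc b)).coeff 0).coeff 1 = dr F gX (gc a) ∧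
    ((pI F gX (gc a) (gc b)).coeff 1).coeff 0 = dr F gX (gc b) := by
  unfold pI
  rw [rs_eq]
  have h := ln_coeff F (fun j => Polynomial.C (gX j) + Polynomial.C (gc a j) * Polynomial.X)
    (fun j => Polynomial.C (gc b j))
  rw [h.1, h.2]
  have h1 : (aeval (fun j => Polynomial.C (gX j) + Polynomial.C (gc a j) * Polynomial.X) F :
      Polynomial (MvPolynomial (Fin N) ℚ)) = ln F gX (gc a) := rfl
  rw [h1]
  refine ⟨?_, (ln_coeff F gX (gc a)).2, ?_⟩
  · rw [(ln_coeff F gX (gc a)).1]
    exact MvPolynomial.aeval_X_left_apply F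
  · unfold dr
    rw [Polynomial.finsetSum_coeff]
    refine Finset.sum_congr rfl fun j _ => ?_
    have h2 : (aeval (fun j => Polynomial.C (gX j) + Polynomial.C (gc a j) * Polynomial.X)
        (pderiv j F) : Polynomial (MvPolynomial (Fin N) ℚ)) = ln (pderiv j F) gX (gc a) := rfl
    rw [h2, Polynomial.coeff_mul_C, (ln_coeff (pderiv j F) gX (gc a)).1]

/-- the family of lines of the first kind -/
noncomputable def linesI (h : KI F a b) : Lines (eqn F) 1 where
  A := (pI F gX (gc a) (gc b)).coeff 2
  B := (pI F gX (gc a) (gc b)).coeff 1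
  C := (pI F gX (gc a) (gc b)).coeff 0
  α := fun j => Polynomial.C (gc a j) * Polynomial.X
  β := fun j => Polynomial.C (gc b j)
  deg := gen_deg fun x => by
    have := (h x).2
    rw [← qI_eval] at this
    exact this
  C0 := fun x hx => by
    rw [(pI_coeff F a b).1]
    exact (real_iff F x).1 hx
  α0 := fun x hx j => by simp
  line := by
    intro x τ T hx hT i
    have hd : (pI F gX (gc a) (gc b)).natDegree ≤ 2 := gen_deg2 fun x => by
      rw [pI_eval]
      exact (h x).1
    have h1 := rs_real F (fun j => Polynomial.C (gc a j) * Polynomial.X)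
      (fun j => Polynomial.C (gc b j)) x τ T
    change (aeval _ F : ℝ) = 0
    rw [← h1]
    change (pI F gX (gc a) (gc b)).eval₂ (e2 τ x) T = 0
    rw [Polynomial.eval₂_eq_sum_range' _ (Nat.lt_succ_of_le hd)]
    simp only [Finset.sum_range_succ, Finset.sum_range_zero]
    linear_combination hT

/-- the family of curves of the first kind -/
noncomputable def famI (h : KI F a b) : Curves (eqn F) 1 := (linesI h).curves

lemma famI_tangent (h : KI F a b) {x : Fin N → ℝ} (hx : (aeval x F : ℝ) = 0) (j : Fin N) :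
    (famI h).tangent x j = 4 * dr F x (fun j => (b j : ℝ)) *
      tg F x (fun j => (a j : ℝ)) (fun j => (b j : ℝ)) j := by
  have h1 := (linesI h).tangent_eq ((real_iff F x).2 hx) j
  refine h1.trans ?_
  have hB : (linesI h).B.coeff 0 = dr F gX (gc b) := (pI_coeff F a b).2.2
  have hC : (linesI h).C.coeff 1 = dr F gX (gc a) := (pI_coeff F a b).2.1
  have hα : ((linesI h).α j).coeff 1 = gc a j := by
    change (Polynomial.C (gc a j) * Polynomial.X).coeff 1 = gc a j
    rw [Polynomial.coeff_C_mul_X]
    simp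
  have hβ : ((linesI h).β j).coeff 0 = gc b j := by
    change (Polynomial.C (gc b j)).coeff 0 = gc b j
    rw [Polynomial.coeff_C_zero]
  rw [hB, hC, hα, hβ, dr_real, dr_real, algHom_C, algHom_C, eq_ratCast, eq_ratCast]
  rfl

lemma famI_quartic (h : KI F a b) (x : Fin N → ℚ) : (famI h).quartic x = qI F x a b := by
  rw [← qI_eval]
  unfold Curves.quartic
  have hd := (linesI h).deg
  have h1 : (linesI h).disc = qI F gX (gc a) (gc b) := rfl
  have h2 : (qI F gX (gc a) (gc b)).natDegree ≤ 4 := hd
  conv_rhs => rw [Polynomial.as_sum_range' _ 5 (Nat.lt_succ_of_le h2)]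
  rw [Polynomial.map_sum, ← Fin.sum_univ_eq_sum_range (fun k => Polynomial.map (eval x)
    (Polynomial.monomial k ((qI F gX (gc a) (gc b)).coeff k))) 5]
  refine Finset.sum_congr rfl fun k _ => ?_
  rw [Polynomial.map_monomial, ← Polynomial.C_mul_X_pow_eq_monomial]
  rfl

end kindI

section kindII

variable {F : MvPolynomial (Fin N) ℚ} {a b : Fin N → ℚ}

lemma pII_coeff (F : MvPolynomial (Fin N) ℚ) (a b : Fin N → ℚ) :
    (pII F gX (gc a) (gc b)).coeff 0 = Polynomial.C F ∧
    (pII F gX (gc a) (gc b)).coeff 1 = Polynomial.C (dr F gX (gc b)) * Polynomial.X := by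
  unfold pII
  rw [rs_eq]
  have h := ln_coeff F (fun j => Polynomial.C (gX j) + 0)
    (fun j => Polynomial.C (tg F gX (gc a) (gc b) j) + Polynomial.C (gc b j) * Polynomial.X)
  rw [h.1, h.2]
  have key : ∀ G : MvPolynomial (Fin N) ℚ, (aeval (fun j => Polynomial.C (gX (N := N) j) + 0) G :
      Polynomial (MvPolynomial (Fin N) ℚ)) = Polynomial.C G := by
    intro G
    simp only [add_zero]
    have h1 := MvPolynomial.aeval_algebraMap_apply (Polynomial (MvPolynomial (Fin N) ℚ))
      (gX (N := N)) G
    rw [Polynomial.algebraMap_eq, MvPolynomial.aeval_X_left_apply] at h1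
    exact h1
  refine ⟨key F, ?_⟩
  unfold dr
  simp only [key]
  have h2 : ∀ j, Polynomial.C (pderiv j F) * (Polynomial.C (tg F gX (gc a) (gc b) j) +
      Polynomial.C (gc b j) * Polynomial.X) =
      Polynomial.C (pderiv j F * tg F gX (gc a) (gc b) j) +
        Polynomial.C (pderiv j F * gc b j) * Polynomial.X := by
    intro j
    rw [Polynomial.C_mul, Polynomial.C_mul]
    ring
  rw [Finset.sum_congr rfl fun j _ => h2 j, Finset.sum_add_distrib, ← Finset.sum_mul,
    ← map_sum, ← map_sum]
  have h3 : ∑ j, pderiv j F * tg F gX (gc a) (gc b) j = 0 := by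
    have h4 := dr_tg F gX (gc a) (gc b)
    unfold dr at h4
    simp only [MvPolynomial.aeval_X_left_apply] at h4
    exact h4
  rw [h3, map_zero, zero_add]
  simp only [MvPolynomial.aeval_X_left_apply]

/-- the degree of the restriction to the lines through `x` -/
lemma pII_deg {d : ℕ} (h : KD d F a b) : (pII F gX (gc a) (gc b)).natDegree ≤ d := by
  refine gen_deg2 fun x => ?_
  rw [pII_eval, Polynomial.natDegree_le_iff_coeff_eq_zero]
  intro k hk
  refine Polynomial.funext fun τ => ?_
  rw [Polynomial.eval_zero]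
  have h1 := Polynomial.coeff_eq_zero_of_natDegree_lt
    ((h x (dr F x b) (τ - dr F x a)).trans_lt hk)
  have h2 : ln F x (fun j => dr F x b * a j + (τ - dr F x a) * b j) =
      (pII F x a b).map (Polynomial.evalRingHom τ) := by
    unfold pII
    rw [rs_eq, ln_map]
    congr 1
    · funext j
      simp
    · funext j
      simp only [tg, Polynomial.coe_evalRingHom, Polynomial.eval_add, Polynomial.eval_mul,
        Polynomial.eval_C, Polynomial.eval_X]
      ring
  rw [h2, Polynomial.coeff_map] at h1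
  exact h1

lemma qII_deg (F : MvPolynomial (Fin N) ℚ) (a b : Fin N → ℚ) :
    (qII F gX (gc a) (gc b)).natDegree ≤ 4 := by
  have h1 : ∀ j, (Polynomial.C (tg F gX (gc a) (gc b) j) +
      Polynomial.C (gc b j) * Polynomial.X).natDegree ≤ 1 := by
    intro j
    refine Polynomial.natDegree_add_le_of_degree_le ?_ ?_
    · rw [Polynomial.natDegree_C]
      exact Nat.zero_le 1
    · exact (Polynomial.natDegree_C_mul_le _ _).trans (Polynomial.natDegree_X_le)
  have hk : ∀ k, ((pII F gX (gc a) (gc b)).coeff k).natDegree ≤ k := fun k =>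
    rs_deg F gX _ h1 k
  have h2 := hk 2
  have h1 := hk 1
  have h3 := hk 3
  have a1 : ((pII F gX (gc a) (gc b)).coeff 2 ^ 2).natDegree ≤ 4 := by
    refine (Polynomial.natDegree_pow_le).trans ?_
    omega
  have h4 : (4 * (pII F gX (gc a) (gc b)).coeff 3).natDegree ≤ 3 := by
    have : (4 : Polynomial (MvPolynomial (Fin N) ℚ)) = Polynomial.C 4 :=
      (map_ofNat Polynomial.C 4).symm
    rw [this]
    exact (Polynomial.natDegree_C_mul_le _ _).trans h3
  have a2 : (4 * (pII F gX (gc a) (gc b)).coeff 3 *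
      (pII F gX (gc a) (gc b)).coeff 1).natDegree ≤ 4 := by
    refine (Polynomial.natDegree_mul_le).trans ?_
    omega
  have a3 := Polynomial.natDegree_sub_le_of_le a1 a2
  rw [max_self] at a3
  exact a3

/-- the family of lines of the second kind -/
noncomputable def linesII (h : KD 3 F a b) : Lines (eqn F) 1 where
  A := (pII F gX (gc a) (gc b)).coeff 3
  B := (pII F gX (gc a) (gc b)).coeff 2
  C := (pII F gX (gc a) (gc b)).coeff 1
  α := fun _ => 0
  β := fun j => Polynomial.C (tg F gX (gc a) (gc b) j) + Polynomial.C (gc b j) * Polynomial.X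
  deg := qII_deg F a b
  C0 := fun x hx => by
    rw [(pII_coeff F a b).2]
    simp
  α0 := fun x hx j => by simp
  line := by
    intro x τ T hx hT i
    have hd := pII_deg h
    have h1 := rs_real F (fun _ => 0)
      (fun j => Polynomial.C (tg F gX (gc a) (gc b) j) + Polynomial.C (gc b j) * Polynomial.X) x τ T
    change (aeval _ F : ℝ) = 0
    rw [← h1]
    change (pII F gX (gc a) (gc b)).eval₂ (e2 τ x) T = 0
    rw [Polynomial.eval₂_eq_sum_range' _ (Nat.lt_succ_of_le hd)]
    have h0 : e2 τ x ((pII F gX (gc a) (gc b)).coeff 0) = 0 := by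
      rw [(pII_coeff F a b).1, e2_def, Polynomial.eval₂_C]
      exact (real_iff F x).1 hx
    simp only [Finset.sum_range_succ, Finset.sum_range_zero, h0]
    linear_combination T * hT

/-- the family of curves of the second kind -/
noncomputable def famII (h : KD 3 F a b) : Curves (eqn F) 1 := (linesII h).curves

lemma famII_tangent (h : KD 3 F a b) {x : Fin N → ℝ} (hx : (aeval x F : ℝ) = 0) (j : Fin N) :
    (famII h).tangent x j = -(4 * (aeval x (((pII F gX (gc a) (gc b)).coeff 2).coeff 0) : ℝ) *
      dr F x (fun j => (b j : ℝ))) * tg F x (fun j => (a j : ℝ)) (fun j => (b j : ℝ)) j := by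
  have h1 := (linesII h).tangent_eq ((real_iff F x).2 hx) j
  refine h1.trans ?_
  have hC : (linesII h).C.coeff 1 = dr F gX (gc b) := by
    change ((pII F gX (gc a) (gc b)).coeff 1).coeff 1 = _
    rw [(pII_coeff F a b).2, Polynomial.coeff_C_mul_X]
    simp
  have hα : ((linesII h).α j).coeff 1 = 0 := Polynomial.coeff_zero 1
  have hβ : ((linesII h).β j).coeff 0 = tg F gX (gc a) (gc b) j := by
    change (Polynomial.C (tg F gX (gc a) (gc b) j) + Polynomial.C (gc b j) *
      Polynomial.X).coeff 0 = _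
    simp
  rw [hC, hα, hβ, dr_real, tg_real, map_zero]
  change 4 * (aeval x (((pII F gX (gc a) (gc b)).coeff 2).coeff 0) : ℝ) * _ = _
  ring

lemma famII_quartic (h : KD 3 F a b) (x : Fin N → ℚ) : (famII h).quartic x = qII F x a b := by
  rw [← qII_eval]
  unfold Curves.quartic
  have h2 : (qII F gX (gc a) (gc b)).natDegree ≤ 4 := qII_deg F a b
  conv_rhs => rw [Polynomial.as_sum_range' _ 5 (Nat.lt_succ_of_le h2)]
  rw [Polynomial.map_sum, ← Fin.sum_univ_eq_sum_range (fun k => Polynomial.map (eval x)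
    (Polynomial.monomial k ((qII F gX (gc a) (gc b)).coeff k))) 5]
  refine Finset.sum_congr rfl fun k _ => ?_
  rw [Polynomial.map_monomial, ← Polynomial.C_mul_X_pow_eq_monomial]
  rfl

end kindII

end Pool.Agent.D0H62.EF
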