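import Pool.Agent.D0H62.EF.Arith

/-!
# Families of curves through the points of a variety: one move
-/

set_option autoImplicit false
set_option linter.unusedSectionVars false
set_option linter.unusedVariables false

open MvPolynomial Filter Topology Pool.Agent.Y718.X Pool.Agent.Y720.MZ

namespace Pool.Agent.D0H62.EF

variable {N c : ℕ} {p : Fin c → MvPolynomial (Fin N) ℚ} {g : MvPolynomial (Fin N) ℚ}
  {v : AbsoluteValue ℚ ℝ} {pr : ℕ}

lemma near_small (hwa : WA (algebraMap ℚ ℝ) v) {t : ℝ} (ht : t ≠ 0) {ε : ℝ} (hε : 0 < ε) :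
    ∃ r : ℚ, v r < 1 ∧ |(r : ℝ) - t| < ε := by
  obtain ⟨u, hu, hu1⟩ := hwa.seq (1 / t)
  have hr : Tendsto (fun k => (((u k)⁻¹ : ℚ) : ℝ)) atTop (𝓝 t) := by
    have := hu.inv₀ (one_div_ne_zero ht)
    rw [one_div, inv_inv] at this
    refine this.congr fun k => ?_
    rw [eq_ratCast, Rat.cast_inv]
  have hε' := (Metric.tendsto_nhds.1 hr) ε hε
  obtain ⟨k, k1⟩ := hε'.exists
  refine ⟨(u k)⁻¹, ?_, ?_⟩
  · rw [map_inv₀]
    exact inv_lt_one_of_one_lt₀ (hu1 k)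
  · rwa [Real.dist_eq] at k1

/-- a point of the curve which is close to a real point and close to the base point for the other
place -/
theorem near_pt (C : Curves p g) (hp : Pl v pr) (hwa : WA (algebraMap ℚ ℝ) v) {x : Fin N → ℚ}
    (hx : RealPt p g (toR x)) (hw : v (eval x C.w) = 1) (hq : ∀ i, v (eval x (C.q i)) ≤ 1)
    (hB : C.Rat ∨ v (Db (C.quartic x)) = 1) (hnd : C.Nd x) {t : ℝ} (ht : t ≠ 0)
    (hseg : ∀ τ : ℝ, 0 ≤ τ → τ ≤ 1 → 0 < C.Rv (τ * t) (toR x)) {ε : ℝ} (hε : 0 < ε) :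
    ∃ r Y : ℚ, v r < 1 ∧ v (Y - eval x C.w) < 1 ∧ |(r : ℝ) - t| < ε ∧
      |(Y : ℝ) - C.sv t (toR x)| < ε ∧
      Y ^ 2 = ∑ k : Fin 5, eval x (C.q k) * r ^ (k : ℕ) := by
  have hw0 : eval x C.w ≠ 0 := by
    intro h0
    rw [h0, map_zero] at hw
    exact zero_ne_one hw
  have hwR : (aeval (toR x) C.w : ℝ) ≠ 0 := by
    rw [aeval_toR]
    exact_mod_cast hw0
  have hbase : (eval x C.w) ^ 2 = eval x (C.q 0) := by
    have h1 := C.base _ hx
    rw [aeval_toR, aeval_toR] at h1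
    exact_mod_cast h1
  have hrat : C.Rat → ∃ r Y : ℚ, v r < 1 ∧ v (Y - eval x C.w) < 1 ∧ |(r : ℝ) - t| < ε ∧
      |(Y : ℝ) - C.sv t (toR x)| < ε ∧
      Y ^ 2 = ∑ k : Fin 5, eval x (C.q k) * r ^ (k : ℕ) := by
    intro hR
    obtain ⟨r, hr, hrt⟩ := near_small hwa ht hε
    refine ⟨r, eval x C.w, hr, by rw [sub_self, map_zero]; exact one_pos, hrt, ?_, ?_⟩
    · have h1 : C.Rv t (toR x) = 1 := by
        unfold Curves.Rv
        rw [hR 1 (by decide), hR 2 (by decide), hR 3 (by decide), hR 4 (by decide)]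
        simp
      unfold Curves.sv
      rw [h1, Real.sqrt_one, mul_one, aeval_toR, sub_self, abs_zero]
      exact hε
    · rw [Finset.sum_eq_single (0 : Fin 5), hbase]
      · simp
      · intro k _ hk
        rw [hR k hk, map_zero, zero_mul]
      · simp
  rcases hnd with hR | hinf
  · exact hrat hR
  rcases hB with hR | hB
  · exact hrat hR
  obtain ⟨hD0, w1, hw10, hw1, hinf⟩ := hinf
  set q := C.quartic x with hqdef
  have hcf : ∀ i : Fin 5, q.coeff (i : ℕ) = eval x (C.q i) := fun i => C.quartic_coeff x i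
  have hcv : ∀ i : Fin 5, v (q.coeff (i : ℕ)) ≤ 1 := fun i => by rw [hcf]; exact hq i
  have c1 : v (q.coeff 1) ≤ 1 := hcv 1
  have c2 : v (q.coeff 2) ≤ 1 := hcv 2
  have c3 : v (q.coeff 3) ≤ 1 := hcv 3
  have c4 : v (q.coeff 4) ≤ 1 := hcv 4
  have e0 : q.coeff 0 = eval x (C.q 0) := hcf 0
  have e1 : q.coeff 1 = eval x (C.q 1) := hcf 1
  have e2 : q.coeff 2 = eval x (C.q 2) := hcf 2
  have e3 : q.coeff 3 = eval x (C.q 3) := hcf 3
  have e4 : q.coeff 4 = eval x (C.q 4) := hcf 4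
  have hDb : v (Db q) = 1 := hB
  have hw12 : w1 ^ 2 = (eval x C.w) ^ 2 := by rw [hw1, e0, hbase]
  have hvw1 : v w1 = 1 := by
    have h1 : v w1 ^ 2 = 1 := by rw [← map_pow, hw12, map_pow, hw, one_pow]
    exact (pow_eq_one_iff_of_nonneg (v.nonneg _) two_ne_zero).1 h1
  have hQr : ∀ s : ℝ, Qr (algebraMap ℚ ℝ w1) (algebraMap ℚ ℝ (q.coeff 1))
      (algebraMap ℚ ℝ (q.coeff 2)) (algebraMap ℚ ℝ (q.coeff 3)) (algebraMap ℚ ℝ (q.coeff 4)) s =
      (aeval (toR x) C.w : ℝ) ^ 2 * C.Rv s (toR x) := by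
    intro s
    unfold Qr Curves.Rv
    have h1 : (algebraMap ℚ ℝ w1) ^ 2 = (aeval (toR x) C.w : ℝ) ^ 2 := by
      rw [aeval_toR, eq_ratCast]
      exact_mod_cast hw12
    rw [h1, mul_add, mul_one, mul_comm ((aeval (toR x) C.w : ℝ) ^ 2) (_ * _), mul_assoc,
      inv_mul_cancel₀ (pow_ne_zero 2 hwR), mul_one, aeval_toR (C.q 1), aeval_toR (C.q 2),
      aeval_toR (C.q 3), aeval_toR (C.q 4), e1, e2, e3, e4]
    simp only [eq_ratCast]
    ring
  have hsv2 : C.sv t (toR x) ^ 2 = (aeval (toR x) C.w : ℝ) ^ 2 * C.Rv t (toR x) := by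
    unfold Curves.sv
    have := hseg 1 zero_le_one le_rfl
    rw [one_mul] at this
    rw [mul_pow, Real.sq_sqrt this.le]
  have hsvpos : 0 < C.sv t (toR x) * (aeval (toR x) C.w : ℝ) := by
    unfold Curves.sv
    have h1 := hseg 1 zero_le_one le_rfl
    rw [one_mul] at h1
    have h2 := Real.sqrt_pos.2 h1
    have h3 : (0 : ℝ) < (aeval (toR x) C.w : ℝ) ^ 2 := by positivity
    nlinarith [mul_pos h3 h2]
  obtain ⟨F, _, ρ, hρ⟩ := hp.res
  have key : ∀ S : ℝ, 0 < S * algebraMap ℚ ℝ w1 → S ^ 2 = C.sv t (toR x) ^ 2 →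
      ∃ r Y : ℚ, v r < 1 ∧ v (Y - w1) < 1 ∧ |algebraMap ℚ ℝ r - t| < ε ∧
      |algebraMap ℚ ℝ Y - S| < ε ∧ Y ^ 2 = w1 ^ 2 + q.coeff 1 * r + q.coeff 2 * r ^ 2 +
        q.coeff 3 * r ^ 3 + q.coeff 4 * r ^ 4 := by
    intro S hS1 hS2
    refine qe (algebraMap ℚ ℝ) hp.na hp.two hvw1 c1 c2 c3 c4 ?_ ρ hρ ?_ ?_ hS1 ?_ hε
    · rw [← bb_eq hw1, ← cb_eq hw1]; exact hDb
    · rw [← bb_eq hw1, ← cb_eq hw1]; exact hinf
    · intro s h0 h1
      rw [hQr]
      exact mul_pos (by positivity) (hseg s h0 h1)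
    · rw [hQr, hS2, hsv2]
  have hfin : ∀ r : ℚ, w1 ^ 2 + q.coeff 1 * r + q.coeff 2 * r ^ 2 +
        q.coeff 3 * r ^ 3 + q.coeff 4 * r ^ 4 = ∑ k : Fin 5, eval x (C.q k) * r ^ (k : ℕ) := by
    intro r
    rw [hw1, e0, e1, e2, e3, e4]
    simp only [Fin.sum_univ_succ, Fin.sum_univ_zero]
    norm_num
    ring_nf
    rfl
  rcases sq_eq_sq_iff_eq_or_eq_neg.1 hw12 with h | h
  · obtain ⟨r, Y, a1, a2, a3, a4, a5⟩ := key (C.sv t (toR x)) (by
      rw [h, eq_ratCast, ← aeval_toR]; exact hsvpos) rfl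
    refine ⟨r, Y, a1, by rw [← h]; exact a2, by rwa [eq_ratCast] at a3, by rwa [eq_ratCast] at a4,
      by rw [a5, hfin]⟩
  · obtain ⟨r, Y, a1, a2, a3, a4, a5⟩ := key (-C.sv t (toR x)) (by
      rw [h, map_neg, neg_mul_neg, eq_ratCast, ← aeval_toR]; exact hsvpos) (neg_sq _)
    refine ⟨r, -Y, a1, ?_, by rwa [eq_ratCast] at a3, ?_, by rw [neg_sq, a5, hfin]⟩
    · have e : -Y - eval x C.w = -(Y - w1) := by rw [h]; ring
      rw [e, v.map_neg]
      exact a2
    · rw [eq_ratCast] at a4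
      have e : ((-Y : ℚ) : ℝ) - C.sv t (toR x) = -((Y : ℝ) - -C.sv t (toR x)) := by
        push_cast; ring
      rw [e, abs_neg]
      exact a4

variable {κ : Type} [Finite κ]

/-- **One move.** -/
theorem move (C : κ → Curves p g) (hp : Pl v pr) (hwa : WA (algebraMap ℚ ℝ) v) (hco : Coef v C)
    {x : Fin N → ℚ} (hx : RealPt p g (toR x)) (hgp : GPt v C x) (hnd : ∀ k, (C k).Nd x) (i : κ)
    {t : ℝ} (hok : ∀ τ : ℝ, 0 ≤ τ → τ ≤ 1 → (C i).Ok (τ * t) (toR x)) {U : Set (Fin N → ℝ)}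
    (hU : U ∈ 𝓝 ((C i).psi (t, toR x))) :
    ∃ x' : Fin N → ℚ, RealPt p g (toR x') ∧ GPt v C x' ∧ (∀ k, (C k).Nd x') ∧ toR x' ∈ U := by
  classical
  have : Fintype κ := Fintype.ofFinite κ
  by_cases ht : t = 0
  · subst ht
    rw [(C i).psi_zero] at hU
    exact ⟨x, hx, hgp, hnd, mem_of_mem_nhds hU⟩
  obtain ⟨M, hM⟩ := nd_of_tor (κ := κ) hp hco
  set G : MvPolynomial (Fin N) ℚ := ∏ k, if (C k).Rat then 1 else (C k).tor M with hG
  have hG0 : (aeval (toR x) G : ℝ) ≠ 0 := by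
    rw [aeval_toR, hG, map_prod]
    have : (∏ k, eval x (if (C k).Rat then 1 else (C k).tor M)) ≠ 0 := by
      refine Finset.prod_ne_zero_iff.2 fun k _ => ?_
      split_ifs with h
      · simp
      · exact (C k).tor_ne ((hnd k).resolve_left h) M
    exact_mod_cast this
  -- the analytic function
  have hana : AnalyticOnNhd ℝ (fun τ : ℝ => (aeval ((C i).psi (τ * t, toR x)) G : ℝ))
      (Set.Icc 0 1) := by
    intro τ hτ
    have h1 := (C i).an_psi (a := (τ * t, toR x)) (hok τ hτ.1 hτ.2)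
    have h2 : AnalyticAt ℝ (fun τ : ℝ => ((τ * t, toR x) : ℝ × (Fin N → ℝ))) τ :=
      (analyticAt_id.mul analyticAt_const).prod analyticAt_const
    have h3 : AnalyticAt ℝ (fun τ : ℝ => (C i).psi (τ * t, toR x)) τ :=
      AnalyticAt.fun_comp (g := (C i).psi) (f := fun τ : ℝ => ((τ * t, toR x) : ℝ × (Fin N → ℝ)))
        h1 h2
    rw [analyticAt_pi_iff] at h3
    exact Curves.an_aeval h3 G
  have hne : ∀ᶠ τ : ℝ in 𝓝[≠] 1, (aeval ((C i).psi (τ * t, toR x)) G : ℝ) ≠ 0 := by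
    rcases (hana 1 ⟨zero_le_one, le_rfl⟩).eventually_eq_zero_or_eventually_ne_zero with h | h
    · exfalso
      have h1 := hana.eqOn_zero_of_preconnected_of_eventuallyEq_zero isPreconnected_Icc
        (show (1 : ℝ) ∈ Set.Icc (0 : ℝ) 1 from ⟨zero_le_one, le_rfl⟩) h
      have h2 := h1 (show (0 : ℝ) ∈ Set.Icc (0 : ℝ) 1 from ⟨le_rfl, zero_le_one⟩)
      simp only [zero_mul, Pi.zero_apply, (C i).psi_zero] at h2
      exact hG0 h2
    · exact h
  have hc1 : ContinuousAt (fun τ : ℝ => (C i).psi (τ * t, toR x)) 1 := by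
    have h1 := ((C i).an_psi (a := (1 * t, toR x)) (hok 1 zero_le_one le_rfl)).continuousAt
    have h2 : ContinuousAt (fun τ : ℝ => ((τ * t, toR x) : ℝ × (Fin N → ℝ))) 1 := by fun_prop
    exact ContinuousAt.comp (g := (C i).psi)
      (f := fun τ : ℝ => ((τ * t, toR x) : ℝ × (Fin N → ℝ))) h1 h2
  have hUi : ∀ᶠ τ : ℝ in 𝓝 1, (C i).psi (τ * t, toR x) ∈ interior U := by
    have h1 : interior U ∈ 𝓝 ((C i).psi (1 * t, toR x)) := by
      rw [one_mul]
      exact interior_mem_nhds.2 hU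
    exact hc1 h1
  obtain ⟨τ, hτ1, hτ0, hτG, hτU⟩ : ∃ τ : ℝ, τ < 1 ∧ 0 < τ ∧
      (aeval ((C i).psi (τ * t, toR x)) G : ℝ) ≠ 0 ∧ (C i).psi (τ * t, toR x) ∈ interior U := by
    have h1 : ∀ᶠ τ : ℝ in 𝓝[<] 1, (aeval ((C i).psi (τ * t, toR x)) G : ℝ) ≠ 0 :=
      hne.filter_mono (nhdsWithin_mono _ fun a ha => ne_of_lt ha)
    have h2 : ∀ᶠ τ : ℝ in 𝓝[<] 1, (C i).psi (τ * t, toR x) ∈ interior U :=
      hUi.filter_mono nhdsWithin_le_nhds
    have h3 : ∀ᶠ τ : ℝ in 𝓝[<] 1, τ < 1 := self_mem_nhdsWithin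
    have h4 : ∀ᶠ τ : ℝ in 𝓝[<] 1, 0 < τ := nhdsWithin_le_nhds (Ioi_mem_nhds zero_lt_one)
    obtain ⟨τ, a1, a2, a3, a4⟩ := (h1.and (h2.and (h3.and h4))).exists
    exact ⟨τ, a3, a4, a1, a2⟩
  -- the new target
  set t' := τ * t with ht'
  have ht'0 : t' ≠ 0 := mul_ne_zero hτ0.ne' ht
  have hok' : ∀ σ : ℝ, 0 ≤ σ → σ ≤ 1 → (C i).Ok (σ * t') (toR x) := by
    intro σ h0 h1
    rw [ht', ← mul_assoc]
    exact hok _ (by positivity) (mul_le_one₀ h1 hτ0.le hτ1.le)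
  have hokt : (C i).Ok t' (toR x) := by
    have := hok' 1 zero_le_one le_rfl
    rwa [one_mul] at this
  set S' := (C i).sv t' (toR x) with hS'
  -- continuity
  let R : ℝ × ℝ → (Fin N → ℝ) := fun b j =>
    Curves.ev ((C i).P j) b.1 b.2 (toR x) / Curves.ev (C i).D b.1 b.2 (toR x)
  have han : ∀ f : MvPolynomial (Fin 2 ⊕ Fin N) ℚ,
      ContinuousAt (fun b : ℝ × ℝ => Curves.ev f b.1 b.2 (toR x)) (t', S') := fun f =>
    (Curves.an_ev f (E := ℝ × ℝ) (t := fun b => b.1) (s := fun b => b.2) (x := fun _ => toR x)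
      analyticAt_fst analyticAt_snd (fun _ => analyticAt_const)).continuousAt
  have hRc : ContinuousAt R (t', S') := by
    refine continuousAt_pi.2 fun j => ?_
    exact (han _).div (han _) hokt.2.2.1
  have hRv : R (t', S') = (C i).psi (t', toR x) :=
    funext fun j => ((C i).psi_eq hx hokt j).symm
  have hev : ∀ᶠ b in 𝓝 (t', S'), R b ∈ interior U ∧ (aeval (R b) G : ℝ) ≠ 0 := by
    have h1 : ∀ᶠ b in 𝓝 (t', S'), R b ∈ interior U := by
      refine hRc ?_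
      rw [hRv]
      exact isOpen_interior.mem_nhds hτU
    have h2 : ContinuousAt (fun b => (aeval (R b) G : ℝ)) (t', S') := by
      have h3 : Continuous fun y : Fin N → ℝ => (aeval y G : ℝ) := by
        have := Pool.Agent.R70.OC.continuous_eval' (map (algebraMap ℚ ℝ) G)
        refine this.congr fun y => ?_
        rw [aeval_def, eval₂_eq_eval_map]
      exact ContinuousAt.comp (g := fun y : Fin N → ℝ => (aeval y G : ℝ)) h3.continuousAt hRc
    refine h1.and (h2.eventually_ne ?_)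
    rw [hRv]
    exact hτG
  obtain ⟨ε, hε, hεb⟩ := Metric.eventually_nhds_iff.1 hev
  -- the rational point of the curve
  have hint : ∀ j, Cg v (x j) (x j) := fun j => Cg.refl (hgp.int j)
  obtain ⟨r, Y, hr, hY, hrt, hYS, hYQ⟩ := near_pt (C i) hp hwa hx (hgp.w i)
    (fun k => (Cg.eval hp.na (hco.hq i k) hint).1) (hgp.B i) (hnd i) ht'0
    (fun σ h0 h1 => (hok' σ h0 h1).2.1) hε
  obtain ⟨hRU, hRG⟩ := hεb (y := ((r : ℝ), (Y : ℝ))) (by
    rw [Prod.dist_eq]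
    exact max_lt (by rw [Real.dist_eq]; exact hrt) (by rw [Real.dist_eq]; exact hYS))
  -- congruences
  have hwi := hgp.w i
  have hvY : v Y ≤ 1 := by
    have : Y = eval x (C i).w + (Y - eval x (C i).w) := by ring
    rw [this]
    exact na_add hp.na hwi.le hY.le
  have cr : Cg v r 0 := ⟨hr.le, by rw [map_zero]; exact zero_le_one, by rwa [sub_zero]⟩
  have cY : Cg v Y (eval x (C i).w) := ⟨hvY, hwi.le, hY⟩
  have cel := cg_elim cr cY hint
  set dd := eval (Sum.elim ![r, Y] x) (C i).D with hdd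
  have hvd : v dd = 1 := (Cg.eval hp.na (hco.hD i) cel).unit hp.na (hgp.D i)
  have hd0 : dd ≠ 0 := by
    intro h0
    rw [h0, map_zero] at hvd
    exact zero_ne_one hvd
  set x' : Fin N → ℚ := fun j => eval (Sum.elim ![r, Y] x) ((C i).P j) / dd with hx'
  have hx'R : toR x' = R ((r : ℝ), (Y : ℝ)) := by
    funext j
    change ((x' j : ℚ) : ℝ) = Curves.ev ((C i).P j) r Y (toR x) / Curves.ev (C i).D r Y (toR x)
    rw [ev_toR, ev_toR, ← hdd, hx']
    push_cast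
    rfl
  have hw0 : (aeval (toR x) (C i).w : ℝ) ≠ 0 := hokt.1
  have hstart : ∀ j, eval (Sum.elim ![0, eval x (C i).w] x) ((C i).P j) =
      x j * eval (Sum.elim ![0, eval x (C i).w] x) (C i).D := by
    intro j
    have h1 := (C i).start (toR x) hx hw0 hokt.2.2.2 j
    have h2 : ∀ f : MvPolynomial (Fin 2 ⊕ Fin N) ℚ,
        (aeval (Sum.elim ![0, (aeval (toR x) (C i).w : ℝ)] (toR x)) f : ℝ) =
          ((eval (Sum.elim ![0, eval x (C i).w] x) f : ℚ) : ℝ) := by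
      intro f
      have h3 := ev_toR f 0 (eval x (C i).w) x
      rw [← aeval_toR, Rat.cast_zero] at h3
      exact h3
    rw [h2, h2] at h1
    change _ = ((x j : ℚ) : ℝ) * _ at h1
    exact_mod_cast h1
  have hclose : ∀ j, v (x' j - x j) < 1 := by
    intro j
    have e1 : x' j - x j = (eval (Sum.elim ![r, Y] x) ((C i).P j) - x j * dd) / dd := by
      rw [hx']
      field_simp
    rw [e1, map_div₀, hvd, div_one]
    have c1 := Cg.eval hp.na (hco.hP i j) cel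
    have c2 := (hint j).mul hp.na (Cg.eval hp.na (hco.hD i) cel)
    have e2 : eval (Sum.elim ![r, Y] x) ((C i).P j) - x j * dd =
        (eval (Sum.elim ![r, Y] x) ((C i).P j) -
          eval (Sum.elim ![0, eval x (C i).w] x) ((C i).P j)) +
        (-(x j * dd - x j * eval (Sum.elim ![0, eval x (C i).w] x) (C i).D)) := by
      rw [hstart j]
      ring
    rw [e2]
    exact na_lt hp.na c1.2.2 (by rw [v.map_neg]; exact c2.2.2)
  have hgp' : GPt v C x' := hgp.move hp.na hco hclose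
  have hX' : RealPt p g (toR x') := by
    refine ⟨fun a => ?_, ?_⟩
    · have h1 := (C i).maps (toR x) r Y hx (by
        have h2 : ((Y ^ 2 : ℚ) : ℝ) = ((∑ k : Fin 5, eval x ((C i).q k) * r ^ (k : ℕ) : ℚ) : ℝ) :=
          congrArg _ hYQ
        push_cast at h2
        rw [h2]
        exact Finset.sum_congr rfl fun k _ => by rw [aeval_toR]) (by
        change Curves.ev (C i).D r Y (toR x) ≠ 0
        rw [ev_toR]
        exact_mod_cast hd0) a
      rw [hx'R]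
      exact h1
    · rw [aeval_toR]
      have h1 := hgp'.g
      have h2 : eval x' g ≠ 0 := by
        intro h0
        rw [h0, map_zero] at h1
        exact zero_ne_one h1
      exact_mod_cast h2
  refine ⟨x', hX', hgp', fun k => ?_, ?_⟩
  · apply hM x' k hX' hgp'
    rw [← hx'R, aeval_toR, hG, map_prod] at hRG
    have h1 : (∏ k, eval x' (if (C k).Rat then 1 else (C k).tor M)) ≠ 0 := by exact_mod_cast hRG
    have h2 := Finset.prod_ne_zero_iff.1 h1 k (Finset.mem_univ k)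
    by_cases hk : (C k).Rat
    · exact Or.inl hk
    · rw [if_neg hk] at h2
      exact Or.inr h2
  · rw [hx'R]
    exact interior_subset hRU

end Pool.Agent.D0H62.EF
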