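import Pool.Agent.D0H62.EF.Opn

/-!
# Families of curves through the points of a variety: the closure is semialgebraic
-/

set_option autoImplicit false
set_option linter.unusedSectionVars false
set_option linter.unusedVariables false

open MvPolynomial Filter Topology Pool.Agent.Y718.X Pool.Agent.Y720.MZ
open Pool.Agent.H581R2 Pool.Agent.TH729.SQ

namespace Pool.Agent.D0H62.EF

variable {N c : ℕ} {p : Fin c → MvPolynomial (Fin N) ℚ} {g : MvPolynomial (Fin N) ℚ}
  {κ : Type}

lemma sa_real (p : Fin c → MvPolynomial (Fin N) ℚ) (g : MvPolynomial (Fin N) ℚ) :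
    SAP (fun x : Fin N → ℝ => RealPt p g x) :=
  SAP.and (SAP.forall_fin fun i => SAP.eq_zero (PF.aeval (p i)))
    (SAP.not (SAP.eq_zero (PF.aeval g)))

lemma sa_smooth (p : Fin c → MvPolynomial (Fin N) ℚ) :
    SAP (fun x : Fin N → ℝ => Smooth p x) := by
  have h1 : SAP (fun u : Fin N ⊕ (Fin c ⊕ Fin N) → ℝ => ∀ i, ∑ j,
      (aeval (fun a => u (Sum.inr (Sum.inr a))) (pderiv j (p i)) : ℝ) * u (Sum.inl j) =
        u (Sum.inr (Sum.inl i))) :=
    SAP.forall_fin fun i => SAP.eq (PF.sum Finset.univ fun j _ =>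
      (pf_aeval _ fun a => PF.coord _).mul (PF.coord _)) (PF.coord _)
  have h2 := SAP.exists_fun (Fin N) (Fin c ⊕ Fin N) _ h1
  have h3 := SAP.not (SAP.exists_fun (Fin c) (Fin N) _ (SAP.not h2))
  refine SAP.congr h3 fun T => ?_
  rw [not_exists]
  refine forall_congr' fun z => ?_
  rw [not_not]
  exact Iff.rfl

lemma sa_ok0 (C : Curves p g) : SAP (fun x : Fin N → ℝ => C.Ok0 x) := by
  unfold Curves.Ok0
  have hw : PF (fun x : Fin N → ℝ => (aeval x C.w : ℝ)) := PF.aeval _
  exact SAP.and (SAP.not (SAP.eq_zero hw))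
    (SAP.not (SAP.eq_zero (pf_ev C.D PF.zero hw fun j => PF.coord j)))

variable [Fintype κ]

lemma sa_spans (C : κ → Curves p g) : SAP (fun x : Fin N → ℝ => Spans C x) := by
  -- the variables `τ`, `w`, `x`
  have h1 : SAP (fun u : κ ⊕ (Fin N ⊕ Fin N) → ℝ => ∀ j, u (Sum.inr (Sum.inl j)) =
      ∑ k, u (Sum.inl k) * (C k).tangent (fun a => u (Sum.inr (Sum.inr a))) j) :=
    SAP.forall_fin fun j => SAP.eq (PF.coord _) (PF.sum Finset.univ fun k _ =>
      (PF.coord _).mul (pf_tangent (C k) (fun a => PF.coord _) j))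
  have h2 := SAP.exists_fun κ (Fin N ⊕ Fin N) _ h1
  have h3 : SAP (fun u : Fin N ⊕ Fin N → ℝ => ∀ i, ∑ j,
      (aeval (fun a => u (Sum.inr a)) (pderiv j (p i)) : ℝ) * u (Sum.inl j) = 0) :=
    SAP.forall_fin fun i => SAP.eq_zero (PF.sum Finset.univ fun j _ =>
      (pf_aeval _ fun a => PF.coord _).mul (PF.coord _))
  have h4 := SAP.not (SAP.exists_fun (Fin N) (Fin N) _ (SAP.not (SAP.imp h3 h2)))
  refine SAP.congr h4 fun T => ?_
  rw [not_exists]
  refine forall_congr' fun w => ?_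
  rw [not_not]
  exact Iff.rfl

lemma sa_vv (C : κ → Curves p g) : SA (VV C) :=
  SAP.and (sa_real p g) (SAP.and (sa_smooth p) (SAP.and (SAP.forall_fin fun k => sa_ok0 (C k))
    (sa_spans C)))

lemma rl_eq (D : Set (Fin N → ℚ)) : rl D = toR '' D := by
  ext x
  constructor
  · rintro ⟨r, hr, rfl⟩
    exact ⟨r, hr, rfl⟩
  · rintro ⟨r, hr, rfl⟩
    exact ⟨r, hr, rfl⟩

/-- the closure is semialgebraic in the good set -/
theorem sa_inter (C : κ → Curves p g) {M : Set (Fin N → ℚ)} (hM : Stable C M) :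
    SA (closure (rl M) ∩ VV C) := by
  rw [rl_eq]
  set D := closure (toR '' M) with hD
  refine sa_of_lc _ (VV C) (D ∩ VV C) (sa_vv C) Set.inter_subset_right ?_
  refine LC.of_clopen (O := interior {x | x ∈ VV C → x ∈ D}) (C := D) isOpen_interior
    isClosed_closure ?_ ?_
  · intro x hx
    constructor
    · rintro ⟨hxD, -⟩
      obtain ⟨U, hU, h⟩ := open_real C hM hx hxD
      rw [mem_interior_iff_mem_nhds]
      filter_upwards [hU] with z hz hzV
      exact h z hz hzV.1
    · intro h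
      exact ⟨interior_subset h hx, hx⟩
  · intro x hx
    exact ⟨fun h => h.1, fun h => ⟨h, hx⟩⟩

/-- **The closure is semialgebraic.** -/
theorem sa_cl (C : κ → Curves p g) {M : Set (Fin N → ℚ)} (hM : Stable C M) :
    SA (closure (rl M)) := by
  have h1 : closure (rl M) = closure (closure (rl M) ∩ VV C) := by
    apply Set.Subset.antisymm
    · apply closure_mono
      rintro x hx
      refine ⟨subset_closure hx, ?_⟩
      obtain ⟨r, hr, rfl⟩ := hx
      exact (hM.1 hr).1
    · exact closure_minimal Set.inter_subset_left isClosed_closure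
  rw [h1]
  exact SA.closure (sa_inter C hM)

/-- **Connected sets.** -/
theorem conn (C : κ → Curves p g) {M : Set (Fin N → ℚ)} (hM : Stable C M)
    {U : Set (Fin N → ℝ)} (hU : U ⊆ VV C) (hUc : IsPreconnected U) :
    U ⊆ closure (rl M) ∨ Disjoint U (closure (rl M)) := by
  rw [rl_eq]
  set D := closure (toR '' M) with hD
  have hcov : U ⊆ interior {x | x ∈ VV C → x ∈ D} ∪ Dᶜ := by
    intro x hx
    by_cases hxD : x ∈ D
    · left
      obtain ⟨W, hW, h⟩ := open_real C hM (hU hx) hxD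
      rw [mem_interior_iff_mem_nhds]
      filter_upwards [hW] with z hz hzV
      exact h z hz hzV.1
    · exact Or.inr hxD
  by_cases hne : (U ∩ D).Nonempty
  · left
    intro x hx
    by_contra hxD
    obtain ⟨y, hyU, hyD⟩ := hne
    have h1 : (U ∩ interior {x | x ∈ VV C → x ∈ D}).Nonempty := by
      refine ⟨y, hyU, ?_⟩
      rcases hcov hyU with h | h
      · exact h
      · exact absurd hyD h
    obtain ⟨z, hzU, hz1, hz2⟩ := hUc _ _ isOpen_interior isClosed_closure.isOpen_compl hcov h1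
      ⟨x, hx, hxD⟩
    exact hz2 (interior_subset hz1 (hU hzU))
  · right
    rw [Set.disjoint_iff_inter_eq_empty]
    exact Set.not_nonempty_iff_eq_empty.1 hne

/-- The family `k` is nondegenerate at the rational point `x`. -/
def Good (C : κ → Curves p g) (x : Fin N → ℚ) (k : κ) : Prop :=
  (C k).Ok0 (toR x) ∧ (C k).Nd x

/-- The tangent vectors of the nondegenerate curves through `x` span the tangent space. -/
def ND (C : κ → Curves p g) : Set (Fin N → ℚ) :=
  {x | RealPt p g (toR x) ∧ Smooth p (toR x) ∧ ∀ w : Fin N → ℝ,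
    (∀ i, ∑ j, (aeval (toR x) (pderiv j (p i)) : ℝ) * w j = 0) →
    ∃ τ : κ → ℝ, (∀ k, ¬ Good C x k → τ k = 0) ∧ ∀ j, w j = ∑ k, τ k * (C k).tangent (toR x) j}

lemma nd_iff (C : κ → Curves p g) (x : Fin N → ℚ) :
    x ∈ ND C ↔ ∃ I : Finset κ, x ∈ NN (fun k : I => C k) := by
  classical
  constructor
  · rintro ⟨hX, hs, hsp⟩
    refine ⟨Finset.univ.filter fun k => Good C x k, ⟨hX, hs, fun k => ?_, fun w hw => ?_⟩,
      fun k => ?_⟩
    · exact (Finset.mem_filter.1 k.2).2.1
    · obtain ⟨τ, hτ0, hτ⟩ := hsp w hw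
      refine ⟨fun k => τ k, fun j => ?_⟩
      rw [hτ j]
      have h1 := Finset.sum_coe_sort (Finset.univ.filter fun k => Good C x k)
        (fun k => τ k * (C k).tangent (toR x) j)
      rw [h1]
      symm
      refine Finset.sum_subset (Finset.filter_subset _ _) fun k _ hk => ?_
      rw [hτ0 k fun h => hk (Finset.mem_filter.2 ⟨Finset.mem_univ _, h⟩), zero_mul]
    · exact (Finset.mem_filter.1 k.2).2.2
  · rintro ⟨I, ⟨hX, hs, h0, hsp⟩, hnd⟩
    refine ⟨hX, hs, fun w hw => ?_⟩
    obtain ⟨τ, hτ⟩ := hsp w hw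
    refine ⟨fun k => if h : k ∈ I then τ ⟨k, h⟩ else 0, fun k hk => ?_, fun j => ?_⟩
    · exact dif_neg fun h => hk ⟨h0 ⟨k, h⟩, hnd ⟨k, h⟩⟩
    · rw [hτ j]
      have h1 := Finset.sum_coe_sort I
        (fun k => (if h : k ∈ I then τ ⟨k, h⟩ else 0) * (C k).tangent (toR x) j)
      have h2 : ∑ k : I, (if h : (k : κ) ∈ I then τ ⟨k, h⟩ else 0) * (C k).tangent (toR x) j =
          ∑ k : I, τ k * (C k).tangent (toR x) j :=
        Finset.sum_congr rfl fun k _ => by rw [dif_pos k.2]
      rw [← h2, h1]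
      refine Finset.sum_subset (Finset.subset_univ _) fun k _ hk => ?_
      rw [dif_neg hk, zero_mul]

/-- **The closure of the set of the nondegenerate points.** -/
theorem sa_nd (C : κ → Curves p g) : SA (closure (rl (ND C))) := by
  classical
  have h1 : rl (ND C) = ⋃ I : Finset κ, rl (NN (fun k : I => C k)) := by
    ext y
    rw [Set.mem_iUnion]
    constructor
    · rintro ⟨x, hx, rfl⟩
      obtain ⟨I, hI⟩ := (nd_iff C x).1 hx
      exact ⟨I, x, hI, rfl⟩
    · rintro ⟨I, x, hx, rfl⟩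
      exact ⟨x, (nd_iff C x).2 ⟨I, hx⟩, rfl⟩
  have h2 : closure (rl (ND C)) = ⋃ I : Finset κ, closure (rl (NN (fun k : I => C k))) := by
    rw [h1, closure_iUnion_of_finite]
  have h3 : SA {x | ∃ I : Finset κ, x ∈ closure (rl (NN (fun k : I => C k)))} :=
    SAP.exists_fin fun I => sa_cl (fun k : I => C k) (stable_all _)
  rw [h2]
  have h4 : (⋃ I : Finset κ, closure (rl (NN (fun k : I => C k)))) =
      {x | ∃ I : Finset κ, x ∈ closure (rl (NN (fun k : I => C k)))} := by
    ext y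
    rw [Set.mem_iUnion]
    exact Iff.rfl
  rw [h4]
  exact h3

end Pool.Agent.D0H62.EF
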