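import Pool.Agent.D0H62.EF.Comp
import Pool.Agent.TH729.SQ.Values

/-!
# Families of curves through the points of a variety: the closure is open
-/

set_option autoImplicit false
set_option linter.unusedSectionVars false
set_option linter.unusedVariables false

open MvPolynomial Filter Topology Pool.Agent.Y718.X Pool.Agent.Y720.MZ
open Pool.Agent.H581R2 Pool.Agent.TH729.SQ

namespace Pool.Agent.D0H62.EF

variable {N c : ℕ} {p : Fin c → MvPolynomial (Fin N) ℚ} {g : MvPolynomial (Fin N) ℚ}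
  {κ : Type}

/-- The Jacobian matrix of the equations has maximal rank. -/
def Smooth (p : Fin c → MvPolynomial (Fin N) ℚ) (x : Fin N → ℝ) : Prop :=
  ∀ z : Fin c → ℝ, ∃ w : Fin N → ℝ, ∀ i, ∑ j, (aeval x (pderiv j (p i)) : ℝ) * w j = z i

/-- The tangent vectors of the curves through `x` span the tangent space. -/
def Spans [Fintype κ] (C : κ → Curves p g) (x : Fin N → ℝ) : Prop :=
  ∀ w : Fin N → ℝ, (∀ i, ∑ j, (aeval x (pderiv j (p i)) : ℝ) * w j = 0) →
    ∃ τ : κ → ℝ, ∀ j, w j = ∑ k, τ k * (C k).tangent x j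

variable [Fintype κ]

/-- The real points at which the tangent vectors span the tangent space. -/
def VV (C : κ → Curves p g) : Set (Fin N → ℝ) :=
  {x | RealPt p g x ∧ Smooth p x ∧ (∀ k, (C k).Ok0 x) ∧ Spans C x}

/-- The nondegenerate rational points. -/
def NN (C : κ → Curves p g) : Set (Fin N → ℚ) :=
  {x | toR x ∈ VV C ∧ ∀ k, (C k).Nd x}

lemma pf_aeval {ι ι' : Type} (q : MvPolynomial ι' ℚ) {φ : (ι → ℝ) → ι' → ℝ}
    (hφ : ∀ j, PF (fun u => φ u j)) : PF (fun u => (aeval (φ u) q : ℝ)) :=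
  (PF.aeval q).comp hφ

lemma pf_ev {ι : Type} (f : MvPolynomial (Fin 2 ⊕ Fin N) ℚ) {t s : (ι → ℝ) → ℝ}
    {x : (ι → ℝ) → Fin N → ℝ} (ht : PF t) (hs : PF s) (hx : ∀ j, PF (fun u => x u j)) :
    PF (fun u => Curves.ev f (t u) (s u) (x u)) := by
  unfold Curves.ev
  refine pf_aeval f fun j => ?_
  rcases j with j | j
  · fin_cases j
    · exact ht
    · exact hs
  · exact hx j

lemma pf_tangent {ι : Type} (C : Curves p g) {x : (ι → ℝ) → Fin N → ℝ}
    (hx : ∀ j, PF (fun u => x u j)) (j : Fin N) : PF (fun u => C.tangent (x u) j) := by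
  unfold Curves.tangent
  have hw : PF (fun u => (aeval (x u) C.w : ℝ)) := pf_aeval _ hx
  have h2 : PF (fun _ : ι → ℝ => (2 : ℝ)) := by
    have := PF.constNat (ι := ι) 2
    simpa using this
  exact ((h2.mul hw).mul ((pf_ev _ PF.zero hw hx).sub ((hx j).mul (pf_ev _ PF.zero hw hx)))).add
    ((pf_aeval _ hx).mul ((pf_ev _ PF.zero hw hx).sub ((hx j).mul (pf_ev _ PF.zero hw hx))))

lemma tangent_cont (C : Curves p g) : Continuous fun x : Fin N → ℝ => C.tangent x :=
  continuous_pi fun j => PF.continuous (pf_tangent C (x := fun u => u) (fun _ => PF.coord _) j)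

/-- the good set is open in the set of real points -/
theorem vv_open (C : κ → Curves p g) {T : Fin N → ℝ} (hT : T ∈ VV C) :
    ∀ᶠ x in 𝓝 T, RealPt p g x → x ∈ VV C := by
  classical
  obtain ⟨hX, hs, h0, hsp⟩ := hT
  let dp : (Fin N → ℝ) → (Fin N → ℝ) → (Fin c → ℝ) := fun x w i =>
    ∑ j, (aeval x (pderiv j (p i)) : ℝ) * w j
  have dp_cont : ∀ w i, Continuous fun x => dp x w i := fun w i =>
    continuous_finsetSum _ fun j _ => (aeval_cont _).mul continuous_const
  have dp_sum : ∀ (x : Fin N → ℝ) {α : Type} (s : Finset α) (f : α → ℝ) (b : α → Fin N → ℝ)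
      (i : Fin c), dp x (fun j => ∑ a ∈ s, f a * b a j) i = ∑ a ∈ s, f a * dp x (b a) i := by
    intro x α s f b i
    simp only [dp, Finset.mul_sum]
    rw [Finset.sum_comm]
    refine Finset.sum_congr rfl fun a _ => Finset.sum_congr rfl fun j _ => by ring
  have dp_add : ∀ (x w w' : Fin N → ℝ) (i : Fin c),
      dp x (fun j => w j + w' j) i = dp x w i + dp x w' i := by
    intro x w w' i
    simp only [dp, mul_add, Finset.sum_add_distrib]
  -- the right inverse
  choose B hB using fun i : Fin c => hs (Pi.single i 1)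
  have hB' : ∀ i k, dp T (B i) k = (Pi.single i 1 : Fin c → ℝ) k := hB
  let E : (Fin N → ℝ) → Matrix (Fin c) (Fin c) ℝ := fun x => Matrix.of fun k i => dp x (B i) k
  have hE : Continuous E := continuous_pi fun k => continuous_pi fun i => dp_cont _ _
  have hET : E T = 1 := by
    ext k i
    change dp T (B i) k = _
    rw [hB', Matrix.one_apply, Pi.single_apply]
  have hEd : ∀ᶠ x in 𝓝 T, (E x).det ≠ 0 := by
    have h1 : ContinuousAt (fun x => (E x).det) T := (hE.matrix_det).continuousAt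
    refine h1.eventually_ne ?_
    rw [hET, Matrix.det_one]
    exact one_ne_zero
  -- the spanning vectors
  have hspanT : ∀ u : Fin N → ℝ, ∃ (τ : κ → ℝ) (z : Fin c → ℝ), ∀ j,
      u j = ∑ k, τ k * (C k).tangent T j + ∑ i, z i * B i j := by
    intro u
    have h1 : ∀ i, dp T (fun j => u j - ∑ a, dp T u a * B a j) i = 0 := by
      intro i
      have h2 : (fun j => u j - ∑ a, dp T u a * B a j) =
          fun j => u j + ∑ a, (-dp T u a) * B a j := by
        funext j
        simp only [neg_mul, Finset.sum_neg_distrib]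
        ring
      rw [h2, dp_add, dp_sum]
      simp only [hB', Pi.single_apply]
      simp
    obtain ⟨τ, hτ⟩ := hsp _ h1
    refine ⟨τ, dp T u, fun j => ?_⟩
    rw [← hτ j]
    ring
  choose τ z hτz using fun b : Fin N => hspanT (Pi.single b 1)
  let A : (Fin N → ℝ) → Matrix (Fin N) (Fin N) ℝ := fun x => Matrix.of fun j b =>
    ∑ k, τ b k * (C k).tangent x j + ∑ i, z b i * B i j
  have hA : Continuous A := by
    refine continuous_pi fun j => continuous_pi fun b => ?_
    refine Continuous.add ?_ continuous_const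
    refine continuous_finsetSum _ fun k _ => continuous_const.mul ?_
    exact (continuous_apply j).comp (tangent_cont (C k))
  have hAT : A T = 1 := by
    ext j b
    change (∑ k, τ b k * (C k).tangent T j + ∑ i, z b i * B i j) = _
    rw [← hτz, Matrix.one_apply, Pi.single_apply]
  have hAd : ∀ᶠ x in 𝓝 T, (A x).det ≠ 0 := by
    have h1 : ContinuousAt (fun x => (A x).det) T := (hA.matrix_det).continuousAt
    refine h1.eventually_ne ?_
    rw [hAT, Matrix.det_one]
    exact one_ne_zero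
  have h0' : ∀ᶠ x in 𝓝 T, ∀ k, (C k).Ok0 x := by
    rw [eventually_all]
    exact fun k => (C k).ok0_nhds (h0 k)
  filter_upwards [hEd, hAd, h0'] with x hEx hAx h0x hXx
  have hEu : IsUnit (E x).det := isUnit_iff_ne_zero.2 hEx
  have hAu : IsUnit (A x).det := isUnit_iff_ne_zero.2 hAx
  refine ⟨hXx, fun y => ?_, h0x, fun u hu => ?_⟩
  · -- smoothness
    set y' := (E x)⁻¹.mulVec y with hy'
    have h1 : (E x).mulVec y' = y := by
      rw [hy', Matrix.mulVec_mulVec, Matrix.mul_nonsing_inv _ hEu, Matrix.one_mulVec]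
    refine ⟨fun j => ∑ a, y' a * B a j, fun i => ?_⟩
    have h2 := dp_sum x Finset.univ y' B i
    change dp x (fun j => ∑ a, y' a * B a j) i = y i
    rw [h2, ← congrFun h1 i]
    simp only [Matrix.mulVec, dotProduct]
    refine Finset.sum_congr rfl fun a _ => ?_
    rw [mul_comm]
    rfl
  · -- the span
    set y' := (A x)⁻¹.mulVec u with hy'
    have h1 : (A x).mulVec y' = u := by
      rw [hy', Matrix.mulVec_mulVec, Matrix.mul_nonsing_inv _ hAu, Matrix.one_mulVec]
    let σ : κ → ℝ := fun k => ∑ b, y' b * τ b k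
    let ζ : Fin c → ℝ := fun i => ∑ b, y' b * z b i
    have h2 : ∀ j, u j = ∑ k, σ k * (C k).tangent x j + ∑ i, ζ i * B i j := by
      intro j
      rw [← congrFun h1 j]
      simp only [Matrix.mulVec, dotProduct, A, Matrix.of_apply, σ, ζ, Finset.sum_mul,
        Finset.sum_add_distrib, add_mul]
      congr 1
      · rw [Finset.sum_comm]
        refine Finset.sum_congr rfl fun k _ => Finset.sum_congr rfl fun b _ => by ring
      · rw [Finset.sum_comm]
        refine Finset.sum_congr rfl fun k _ => Finset.sum_congr rfl fun b _ => by ring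
    have h3 : (E x).mulVec ζ = 0 := by
      funext i
      have h4 : dp x u i = 0 := hu i
      have h5 : u = fun j => ∑ k, σ k * (C k).tangent x j + ∑ a, ζ a * B a j := funext h2
      rw [h5, dp_add, dp_sum, dp_sum] at h4
      have h6 : ∑ k, σ k * dp x ((C k).tangent x) i = 0 :=
        Finset.sum_eq_zero fun k _ => by
          have : dp x ((C k).tangent x) i = 0 := (C k).tangent_mem hXx (h0x k) i
          rw [this, mul_zero]
      rw [h6, zero_add] at h4
      rw [Pi.zero_apply, ← h4]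
      simp only [Matrix.mulVec, dotProduct]
      refine Finset.sum_congr rfl fun a _ => ?_
      rw [mul_comm]
      rfl
    have h7 : ζ = 0 := by
      have := congrArg ((E x)⁻¹.mulVec) h3
      rwa [Matrix.mulVec_mulVec, Matrix.nonsing_inv_mul _ hEu, Matrix.one_mulVec,
        Matrix.mulVec_zero] at this
    refine ⟨σ, fun j => ?_⟩
    rw [h2 j, h7]
    simp

/-- a good place for a nondegenerate point -/
theorem exists_place (C : κ → Curves p g) {x : Fin N → ℚ} (hx : x ∈ NN C) :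
    ∃ (v : AbsoluteValue ℚ ℝ) (pr : ℕ), Pl v pr ∧ WA (algebraMap ℚ ℝ) v ∧ Coef v C ∧ GPt v C x := by
  classical
  have hcf : ∀ {ι : Type} (f : MvPolynomial ι ℚ), (Set.range fun d => f.coeff d).Finite := by
    intro ι f
    refine ((f.support.image fun d => f.coeff d) ∪ {0} : Finset ℚ).finite_toSet.subset ?_
    rintro _ ⟨d, rfl⟩
    by_cases hd : d ∈ f.support
    · simp only [Finset.coe_union, Set.mem_union]
      exact Or.inl (Finset.mem_coe.2 (Finset.mem_image_of_mem _ hd))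
    · simp only [Finset.coe_union, Set.mem_union]
      right
      rw [notMem_support_iff.1 hd]
      simp
  have hfin : ((Set.range fun d => g.coeff d) ∪ (⋃ k, Set.range fun d => (C k).w.coeff d) ∪
      (⋃ k, ⋃ i, Set.range fun d => ((C k).q i).coeff d) ∪
      (⋃ k, ⋃ j, Set.range fun d => ((C k).P j).coeff d) ∪
      (⋃ k, Set.range fun d => (C k).D.coeff d) ∪ Set.range x ∪ {eval x g} ∪
      (Set.range fun k => eval x (C k).w) ∪
      (Set.range fun k => eval (Sum.elim ![0, eval x (C k).w] x) (C k).D) ∪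
      (Set.range fun k => Db ((C k).quartic x)) : Set ℚ).Finite := by
    refine ((((((((((hcf g).union ?_).union ?_).union ?_).union ?_).union ?_).union ?_).union
      ?_).union ?_).union ?_)
    · exact Set.finite_iUnion fun k => hcf _
    · exact Set.finite_iUnion fun k => Set.finite_iUnion fun i => hcf _
    · exact Set.finite_iUnion fun k => Set.finite_iUnion fun i => hcf _
    · exact Set.finite_iUnion fun k => hcf _
    · exact Set.finite_range _
    · exact Set.finite_singleton _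
    · exact Set.finite_range _
    · exact Set.finite_range _
    · exact Set.finite_range _
  obtain ⟨v, pr, hp, hwa, hv⟩ := good_places_rat hfin.toFinset
  have hv1 : ∀ y, y ∈ _ → v y ≤ 1 ∧ (y ≠ 0 → v y = 1) := fun y hy =>
    hv y (hfin.mem_toFinset.2 hy)
  obtain ⟨⟨hX, hs, h0, hsp⟩, hnd⟩ := hx
  refine ⟨v, pr, hp, hwa, ⟨fun d => (hv1 _ ?_).1, fun k d => (hv1 _ ?_).1,
    fun k i d => (hv1 _ ?_).1, fun k j d => (hv1 _ ?_).1, fun k d => (hv1 _ ?_).1⟩,
    ⟨fun j => (hv1 _ ?_).1, (hv1 _ ?_).2 ?_, fun k => (hv1 _ ?_).2 ?_,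
    fun k => (hv1 _ ?_).2 ?_, fun k => ?_⟩⟩
  · exact Or.inl (Or.inl (Or.inl (Or.inl (Or.inl (Or.inl (Or.inl (Or.inl (Or.inl
      ⟨d, rfl⟩))))))))
  · exact Or.inl (Or.inl (Or.inl (Or.inl (Or.inl (Or.inl (Or.inl (Or.inl (Or.inr
      (Set.mem_iUnion.2 ⟨k, d, rfl⟩)))))))))
  · exact Or.inl (Or.inl (Or.inl (Or.inl (Or.inl (Or.inl (Or.inl (Or.inr
      (Set.mem_iUnion.2 ⟨k, Set.mem_iUnion.2 ⟨i, d, rfl⟩⟩))))))))
  · exact Or.inl (Or.inl (Or.inl (Or.inl (Or.inl (Or.inl (Or.inr
      (Set.mem_iUnion.2 ⟨k, Set.mem_iUnion.2 ⟨j, d, rfl⟩⟩)))))))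
  · exact Or.inl (Or.inl (Or.inl (Or.inl (Or.inl (Or.inr
      (Set.mem_iUnion.2 ⟨k, d, rfl⟩))))))
  · exact Or.inl (Or.inl (Or.inl (Or.inl (Or.inr ⟨j, rfl⟩))))
  · exact Or.inl (Or.inl (Or.inl (Or.inr rfl)))
  · have h1 := hX.2
    rw [aeval_toR] at h1
    exact_mod_cast h1
  · exact Or.inl (Or.inl (Or.inr ⟨k, rfl⟩))
  · have h1 := (h0 k).1
    rw [aeval_toR] at h1
    exact_mod_cast h1
  · exact Or.inl (Or.inr ⟨k, rfl⟩)
  · have h1 := (h0 k).2
    rw [aeval_toR] at h1
    have h3 := ev_toR (C k).D 0 (eval x (C k).w) x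
    rw [Rat.cast_zero] at h3
    rw [h3] at h1
    exact_mod_cast h1
  · rcases hnd k with h | h
    · exact Or.inl h
    · exact Or.inr ((hv1 _ (Or.inr ⟨k, rfl⟩)).2 h.1)

/-- sets of nondegenerate points which are closed under small moves -/
def Stable (C : κ → Curves p g) (M : Set (Fin N → ℚ)) : Prop :=
  M ⊆ NN C ∧ ∀ x ∈ M, ∃ (v : AbsoluteValue ℚ ℝ) (pr : ℕ), Pl v pr ∧ WA (algebraMap ℚ ℝ) v ∧
    Coef v C ∧ GPt v C x ∧ ∀ x' ∈ NN C, GPt v C x' → x' ∈ M

lemma stable_all (C : κ → Curves p g) : Stable C (NN C) := by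
  refine ⟨le_rfl, fun x hx => ?_⟩
  obtain ⟨v, pr, h1, h2, h3, h4⟩ := exists_place C hx
  exact ⟨v, pr, h1, h2, h3, h4, fun x' hx' _ => hx'⟩

lemma stable_at (C : κ → Curves p g) {v : AbsoluteValue ℚ ℝ} {pr : ℕ} (hp : Pl v pr)
    (hwa : WA (algebraMap ℚ ℝ) v) (hco : Coef v C) : Stable C {x | x ∈ NN C ∧ GPt v C x} :=
  ⟨fun _ hx => hx.1, fun _ hx => ⟨v, pr, hp, hwa, hco, hx.2, fun _ h1 h2 => ⟨h1, h2⟩⟩⟩

/-- **The closure is open.** -/
theorem open_real (C : κ → Curves p g) {M : Set (Fin N → ℚ)} (hM : Stable C M)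
    {T : Fin N → ℝ} (hT : T ∈ VV C) (hcl : T ∈ closure (toR '' M)) :
    ∃ U ∈ 𝓝 T, ∀ S ∈ U, RealPt p g S → S ∈ closure (toR '' M) := by
  classical
  obtain ⟨hX, hs, h0, hsp⟩ := id hT
  set l : List κ := Finset.univ.toList with hl
  obtain ⟨L, hL, hL'⟩ := comp_deriv C hX h0 l
  have hL'' : ∀ τ : κ → ℝ, L (τ, 0) = ∑ k, τ k • (C k).tv T := by
    intro τ
    rw [hL', add_zero, hl, Finset.sum_map_toList]
  let pm : (Fin N → ℝ) → (Fin c → ℝ) := fun y i => aeval y (p i)
  let J : (Fin N → ℝ) →L[ℝ] (Fin c → ℝ) := ContinuousLinearMap.pi fun i =>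
    Pool.Agent.R70.OC.grad (map (algebraMap ℚ ℝ) (p i)) T
  have key : ∀ (h : MvPolynomial (Fin N) ℚ) (z : Fin N → ℝ),
      (aeval z h : ℝ) = eval z (map (algebraMap ℚ ℝ) h) := by
    intro h z
    rw [aeval_def, eval₂_eq_eval_map]
  have hpm : HasStrictFDerivAt pm J T := by
    rw [hasStrictFDerivAt_pi']
    intro i
    have h1 := Pool.Agent.R70.OC.hasStrictFDerivAt_eval (map (algebraMap ℚ ℝ) (p i)) T
    have h2 : (fun y : Fin N → ℝ => pm y i) = fun y => eval y (map (algebraMap ℚ ℝ) (p i)) :=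
      funext fun y => key _ _
    rw [h2]
    exact h1
  have hJ : ∀ w i, J w i = ∑ j, (aeval T (pderiv j (p i)) : ℝ) * w j := by
    intro w i
    change Pool.Agent.R70.OC.grad (map (algebraMap ℚ ℝ) (p i)) T w = _
    rw [Pool.Agent.R70.OC.grad_apply]
    exact Finset.sum_congr rfl fun j _ => by rw [key, pderiv_map]
  have hJs : Function.Surjective J := by
    intro z
    obtain ⟨w, hw⟩ := hs z
    exact ⟨w, funext fun i => by rw [hJ, hw i]⟩
  obtain ⟨s0, hs0⟩ := LinearMap.exists_rightInverse_of_surjective (J : (Fin N → ℝ) →ₗ[ℝ] (Fin c → ℝ))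
    (LinearMap.range_eq_top.2 hJs)
  let s : (Fin c → ℝ) →L[ℝ] (Fin N → ℝ) := LinearMap.toContinuousLinearMap s0
  have hsr : ∀ r, J (s r) = r := fun r => by
    have := congrArg (fun f : (Fin c → ℝ) →ₗ[ℝ] (Fin c → ℝ) => f r) hs0
    exact this
  have hspan : ∀ w, J w = 0 → ∃ τ, L (τ, 0) = w := by
    intro w hw
    obtain ⟨τ, hτ⟩ := hsp w fun i => by
      rw [← hJ, hw]
      rfl
    refine ⟨fun k => τ k * (2 * (aeval T (C k).w : ℝ) * Curves.ev (C k).D 0 (aeval T (C k).w) T),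
      ?_⟩
    rw [hL'']
    funext j
    rw [hτ j, Finset.sum_apply]
    refine Finset.sum_congr rfl fun k _ => ?_
    have h1 := (h0 k).1
    have h2 := (h0 k).2
    simp only [Curves.tv, Pi.smul_apply, smul_eq_mul]
    field_simp
  obtain ⟨U, hU, hsol⟩ := Pool.Agent.R70.OC.solve (comp C l) L (0 : κ → ℝ) T hL
    (comp_zero C l T) pm J hpm s hsr hspan _ (pok_nhds C hX h0 l)
  have hO : {x | x ∈ U ∧ (RealPt p g x → x ∈ VV C)} ∈ 𝓝 T := by
    filter_upwards [hU, vv_open C hT] with x h1 h2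
    exact ⟨h1, h2⟩
  obtain ⟨O, hOs, hOo, hOT⟩ := mem_nhds_iff.1 hO
  refine ⟨O, hOo.mem_nhds hOT, fun S hS hSX => ?_⟩
  obtain ⟨_, hxO, x, hx, rfl⟩ := mem_closure_iff_nhds.1 hcl O (hOo.mem_nhds hOT)
  have hxN := hM.1 hx
  have hxX : RealPt p g (toR x) := hxN.1.1
  obtain ⟨t, htW, htS⟩ := hsol (toR x) (hOs hxO).1 S (hOs hS).1 (funext fun i => hSX.1 i)
    (fun t ht => funext fun i => (comp_real C l (t, toR x) hxX.1 ht).1 i)
  have htW' : POk C l (t, toR x) := htW
  obtain ⟨v, pr, hp, hwa, hco, hgp, hst⟩ := hM.2 x hx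
  rw [mem_closure_iff_nhds]
  intro O' hO'
  obtain ⟨x', a1, a2, a3, a4⟩ := move_comp C hp hwa hco hxX hgp hxN.2 t l htW' (O' ∩ O) (by
    rw [htS]
    exact Filter.inter_mem hO' (hOo.mem_nhds hS))
  exact ⟨toR x', a4.1, x', hst x' ⟨(hOs a4.2).2 a1, a3⟩ a2, rfl⟩

end Pool.Agent.D0H62.EF
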