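import Pool.Agent.D0H62.EF.Sec

/-!
# The nondegenerate points with good reduction at a prime number
-/

set_option autoImplicit false
set_option linter.unusedSectionVars false
set_option linter.unusedVariables false

open MvPolynomial Filter Topology Pool.Agent.Y718.X Pool.Agent.Y720.MZ
open Pool.Agent.H581R2 Pool.Agent.TH729.SQ

namespace Pool.Agent.D0H62.EF

variable {N c : ℕ} {p : Fin c → MvPolynomial (Fin N) ℚ} {g : MvPolynomial (Fin N) ℚ} {κ : Type}
  [Fintype κ]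

lemma vp_pn (r : ℕ) [Fact r.Prime] (x : ℚ) : vp r x = ((padicNorm r x : ℚ) : ℝ) :=
  Rat.AbsoluteValue.padic_eq_padicNorm r x

lemma vp_le (r : ℕ) [Fact r.Prime] (x : ℚ) : vp r x ≤ 1 ↔ padicNorm r x ≤ 1 := by
  rw [vp_pn]
  exact_mod_cast Iff.rfl

lemma vp_one (r : ℕ) [Fact r.Prime] (x : ℚ) : vp r x = 1 ↔ padicNorm r x = 1 := by
  rw [vp_pn]
  exact_mod_cast Iff.rfl

/-- the coefficients are integral at `r` -/
def CoefAt (r : ℕ) (C : κ → Curves p g) : Prop :=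
  (∀ d, padicNorm r (g.coeff d) ≤ 1) ∧ ∀ k, (∀ d, padicNorm r ((C k).w.coeff d) ≤ 1) ∧
    (∀ i d, padicNorm r (((C k).q i).coeff d) ≤ 1) ∧
    (∀ j d, padicNorm r (((C k).P j).coeff d) ≤ 1) ∧ ∀ d, padicNorm r ((C k).D.coeff d) ≤ 1

/-- good reduction at `r` -/
def GoodAt (r : ℕ) (C : κ → Curves p g) (x : Fin N → ℚ) : Prop :=
  (∀ j, padicNorm r (x j) ≤ 1) ∧ padicNorm r (eval x g) = 1 ∧ ∀ k,
    padicNorm r (eval x (C k).w) = 1 ∧
    padicNorm r (eval (Sum.elim ![0, eval x (C k).w] x) (C k).D) = 1 ∧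
    ((∀ i : Fin 5, i ≠ 0 → (C k).q i = 0) ∨ padicNorm r (jac ((C k).quartic x)).Δ = 1)

lemma coef_iff (r : ℕ) [Fact r.Prime] (C : κ → Curves p g) (h : CoefAt r C) :
    Coef (vp r) C := by
  obtain ⟨h1, h2⟩ := h
  exact ⟨fun d => (vp_le r _).2 (h1 d), fun k d => (vp_le r _).2 ((h2 k).1 d),
    fun k i d => (vp_le r _).2 ((h2 k).2.1 i d), fun k j d => (vp_le r _).2 ((h2 k).2.2.1 j d),
    fun k d => (vp_le r _).2 ((h2 k).2.2.2 d)⟩

lemma jac_unit (r : ℕ) [hr : Fact r.Prime] (h3 : 3 ≤ r) (q : Polynomial ℚ) :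
    padicNorm r (jac q).Δ = 1 ↔ vp r (Db q) = 1 := by
  rw [← vp_one, jac_eq, cv_Δ, map_mul]
  have h2 := (pl_padic r h3).two
  have h16 : vp r 16 = 1 := by
    have : (16 : ℚ) = 2 ^ 4 := by norm_num
    rw [this, map_pow, h2, one_pow]
  rw [h16, one_mul]
  rfl

lemma good_iff (r : ℕ) [Fact r.Prime] (h3 : 3 ≤ r) (C : κ → Curves p g) (x : Fin N → ℚ) :
    GoodAt r C x ↔ GPt (vp r) C x := by
  unfold GoodAt
  simp only [jac_unit r h3, ← vp_le, ← vp_one]
  constructor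
  · rintro ⟨h1, h2, h4⟩
    exact ⟨h1, h2, fun k => (h4 k).1, fun k => (h4 k).2.1, fun k => (h4 k).2.2⟩
  · rintro ⟨h1, h2, h4, h5, h6⟩
    exact ⟨h1, h2, fun k => ⟨h4 k, h5 k, h6 k⟩⟩

/-- **Nondegeneracy is an open condition at the points with good reduction.** -/
theorem padic_G (r : ℕ) [Fact r.Prime] (h3 : 3 ≤ r) (C : κ → Curves p g) (h : CoefAt r C) :
    ∃ G : κ → MvPolynomial (Fin N) ℚ, ∀ (k : κ) (x : Fin N → ℚ), RealPt p g (toR x) →
      GoodAt r C x → ((C k).Nd x ↔ eval x (G k) ≠ 0) := by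
  classical
  obtain ⟨M, hM⟩ := nd_of_tor (κ := κ) (pl_padic r h3) (coef_iff r C h)
  refine ⟨fun k => if (C k).Rat then 1 else (C k).tor M, fun k x hx hg => ?_⟩
  rw [good_iff r h3] at hg
  change (C k).Nd x ↔ eval x (if (C k).Rat then 1 else (C k).tor M) ≠ 0
  by_cases hR : (C k).Rat
  · rw [if_pos hR, map_one]
    exact ⟨fun _ => one_ne_zero, fun _ => Or.inl hR⟩
  · rw [if_neg hR]
    constructor
    · intro hn
      exact (C k).tor_ne (hn.resolve_left hR) M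
    · intro hn
      exact hM x k hx hg (Or.inr hn)

lemma good_ok0 (r : ℕ) [Fact r.Prime] (h3 : 3 ≤ r) (C : κ → Curves p g) {x : Fin N → ℚ}
    (h : GoodAt r C x) (k : κ) : (C k).Ok0 (toR x) := by
  have h1 := (h.2.2 k).1
  have h2 := (h.2.2 k).2.1
  refine ⟨?_, ?_⟩
  · rw [aeval_toR]
    intro h0
    have h4 : eval x (C k).w = 0 := by exact_mod_cast h0
    rw [h4, padicNorm.zero] at h1
    exact zero_ne_one h1
  · have h5 := ev_toR (C k).D 0 (eval x (C k).w) x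
    rw [Rat.cast_zero, ← aeval_toR] at h5
    rw [h5]
    intro h0
    have h4 : eval (Sum.elim ![0, eval x (C k).w] x) (C k).D = 0 := by exact_mod_cast h0
    rw [h4, padicNorm.zero] at h2
    exact zero_ne_one h2

/-- the nondegenerate points with good reduction -/
def NP (r : ℕ) (C : κ → Curves p g) : Set (Fin N → ℚ) := {x | x ∈ NN C ∧ GoodAt r C x}

theorem stable_np (r : ℕ) [Fact r.Prime] (h3 : 3 ≤ r) (C : κ → Curves p g) (h : CoefAt r C) :
    Stable C (NP r C) := by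
  have h1 : NP r C = {x | x ∈ NN C ∧ GPt (vp r) C x} := by
    ext x
    exact and_congr Iff.rfl (good_iff r h3 C x)
  rw [h1]
  exact stable_at C (pl_padic r h3) (wa_padic r) (coef_iff r C h)

end Pool.Agent.D0H62.EF
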