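import Pool.Agent.D0H62.EF.Mz

/-!
# Families of curves from families of lines on which the equations become quadratic
-/

set_option autoImplicit false
set_option linter.unusedSectionVars false
set_option linter.unusedVariables false

open MvPolynomial Filter Topology Pool.Agent.Y718.X Pool.Agent.Y720.MZ
open Pool.Agent.H581R2 Pool.Agent.TH729.SQ

namespace Pool.Agent.D0H62.EF

variable {N c : ℕ} {p : Fin c → MvPolynomial (Fin N) ℚ} {g : MvPolynomial (Fin N) ℚ}

/-- the real value of a polynomial in one variable with polynomial coefficients -/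
noncomputable def e2 (τ : ℝ) (x : Fin N → ℝ) : Polynomial (MvPolynomial (Fin N) ℚ) →+* ℝ :=
  Polynomial.eval₂RingHom (aeval x : MvPolynomial (Fin N) ℚ →ₐ[ℚ] ℝ).toRingHom τ

lemma e2_def (τ : ℝ) (x : Fin N → ℝ) (f : Polynomial (MvPolynomial (Fin N) ℚ)) :
    e2 τ x f = f.eval₂ (aeval x : MvPolynomial (Fin N) ℚ →ₐ[ℚ] ℝ).toRingHom τ := rfl

lemma e2_zero (x : Fin N → ℝ) (f : Polynomial (MvPolynomial (Fin N) ℚ)) :
    e2 0 x f = (aeval x (f.coeff 0) : ℝ) := by
  rw [e2_def, Polynomial.eval₂_at_zero]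
  rfl

/-- as a polynomial in several variables -/
noncomputable def mv (f : Polynomial (MvPolynomial (Fin N) ℚ)) : MvPolynomial (Fin 2 ⊕ Fin N) ℚ :=
  f.eval₂ (rename Sum.inr : MvPolynomial (Fin N) ℚ →ₐ[ℚ] MvPolynomial (Fin 2 ⊕ Fin N) ℚ).toRingHom
    (X (Sum.inl 0))

lemma ev_mv (f : Polynomial (MvPolynomial (Fin N) ℚ)) (t s : ℝ) (x : Fin N → ℝ) :
    (aeval (Sum.elim ![t, s] x) (mv f) : ℝ) = e2 t x f := by
  unfold mv
  rw [e2_def]
  have h := Polynomial.hom_eval₂ f
    (rename Sum.inr : MvPolynomial (Fin N) ℚ →ₐ[ℚ] MvPolynomial (Fin 2 ⊕ Fin N) ℚ).toRingHom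
    (aeval (Sum.elim ![t, s] x) : MvPolynomial (Fin 2 ⊕ Fin N) ℚ →ₐ[ℚ] ℝ).toRingHom
    (X (Sum.inl 0))
  refine h.trans ?_
  have h1 : (aeval (Sum.elim ![t, s] x) : MvPolynomial (Fin 2 ⊕ Fin N) ℚ →ₐ[ℚ] ℝ).toRingHom
      (X (Sum.inl 0)) = t := by
    change (aeval (Sum.elim ![t, s] x) (X (Sum.inl 0) : MvPolynomial (Fin 2 ⊕ Fin N) ℚ) : ℝ) = t
    rw [aeval_X]
    rfl
  rw [h1]
  congr 1
  refine RingHom.ext fun r => ?_
  change (aeval (Sum.elim ![t, s] x) (rename Sum.inr r) : ℝ) = aeval x r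
  rw [aeval_rename]
  congr 1

/-- A family of lines `x + α(τ) + T β(τ)` through which the points of `A T² + B T + C = 0` are in
the variety. -/
structure Lines (p : Fin c → MvPolynomial (Fin N) ℚ) (g : MvPolynomial (Fin N) ℚ) where
  A : Polynomial (MvPolynomial (Fin N) ℚ)
  B : Polynomial (MvPolynomial (Fin N) ℚ)
  C : Polynomial (MvPolynomial (Fin N) ℚ)
  α : Fin N → Polynomial (MvPolynomial (Fin N) ℚ)
  β : Fin N → Polynomial (MvPolynomial (Fin N) ℚ)
  deg : (B ^ 2 - 4 * A * C).natDegree ≤ 4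
  C0 : ∀ x : Fin N → ℝ, RealPt p g x → (aeval x (C.coeff 0) : ℝ) = 0
  α0 : ∀ x : Fin N → ℝ, RealPt p g x → ∀ j, (aeval x ((α j).coeff 0) : ℝ) = 0
  line : ∀ (x : Fin N → ℝ) (τ T : ℝ), RealPt p g x →
    e2 τ x A * T ^ 2 + e2 τ x B * T + e2 τ x C = 0 → ∀ i,
    (aeval (fun j => x j + e2 τ x (α j) + T * e2 τ x (β j)) (p i) : ℝ) = 0

namespace Lines

variable (F : Lines p g)

/-- the discriminant -/
noncomputable def disc : Polynomial (MvPolynomial (Fin N) ℚ) := F.B ^ 2 - 4 * F.A * F.C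

lemma e2_disc (τ : ℝ) (x : Fin N → ℝ) :
    e2 τ x F.disc = ∑ k : Fin 5, (aeval x (F.disc.coeff k) : ℝ) * τ ^ (k : ℕ) := by
  rw [e2_def, Polynomial.eval₂_eq_sum_range' _
    (Nat.lt_succ_of_le (show F.disc.natDegree ≤ 4 from F.deg)), ← Fin.sum_univ_eq_sum_range
    (fun k => (aeval x : MvPolynomial (Fin N) ℚ →ₐ[ℚ] ℝ).toRingHom (F.disc.coeff k) * τ ^ k) 5]
  rfl

/-- the family of curves -/
noncomputable def curves : Curves p g where
  q := fun k => F.disc.coeff k
  w := F.B.coeff 0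
  P := fun j => (X (Sum.inr j) + mv (F.α j)) * (mv F.B + X (Sum.inl 1)) -
    2 * mv F.C * mv (F.β j)
  D := mv F.B + X (Sum.inl 1)
  base := by
    intro x hx
    have h := F.C0 x hx
    have e : F.disc.coeff ((0 : Fin 5) : ℕ) = F.B.coeff 0 ^ 2 - 4 * F.A.coeff 0 * F.C.coeff 0 := by
      have : ((0 : Fin 5) : ℕ) = 0 := rfl
      rw [this, disc, Polynomial.coeff_sub, mul_assoc, Polynomial.coeff_ofNat_mul, pow_two,
        Polynomial.mul_coeff_zero, Polynomial.mul_coeff_zero]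
      ring
    rw [e, map_sub, map_mul, h, mul_zero, sub_zero, map_pow]
  maps := by
    intro x t s hx hs hD i
    have hs' : s ^ 2 = e2 t x F.B ^ 2 - 4 * e2 t x F.A * e2 t x F.C := by
      rw [hs, ← e2_disc, disc, map_sub, map_pow, map_mul, map_mul, map_ofNat]
    simp only [map_add, map_sub, map_mul, ev_mv, aeval_X, map_ofNat, Sum.elim_inr, Sum.elim_inl,
      Matrix.cons_val_one, Matrix.cons_val_fin_one] at hD ⊢
    have h := F.line x t (-2 * e2 t x F.C / (e2 t x F.B + s)) hx (by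
      field_simp
      linear_combination e2 t x F.C * hs') i
    have e : (fun j => ((x j + e2 t x (F.α j)) * (e2 t x F.B + s) -
        2 * e2 t x F.C * e2 t x (F.β j)) / (e2 t x F.B + s)) =
        fun j => x j + e2 t x (F.α j) + -2 * e2 t x F.C / (e2 t x F.B + s) * e2 t x (F.β j) := by
      funext j
      field_simp
      ring
    rw [e]
    exact h
  start := by
    intro x hx hw hD j
    simp only [map_add, map_sub, map_mul, ev_mv, aeval_X, map_ofNat, Sum.elim_inr, Sum.elim_inl,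
      Matrix.cons_val_one, Matrix.cons_val_fin_one, e2_zero, F.C0 x hx, F.α0 x hx j]
    ring

lemma pd_ren (i : Fin 2) (r : MvPolynomial (Fin N) ℚ) :
    pderiv (Sum.inl i) (rename Sum.inr r : MvPolynomial (Fin 2 ⊕ Fin N) ℚ) = 0 := by
  induction r using MvPolynomial.induction_on with
  | C a => simp
  | add p q hp hq => rw [map_add, map_add, hp, hq, add_zero]
  | mul_X p j h =>
    rw [map_mul, pderiv_mul, h, rename_X, pderiv_X_of_ne (by simp)]
    simp

lemma mv_add (f h : Polynomial (MvPolynomial (Fin N) ℚ)) : mv (f + h) = mv f + mv h := by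
  unfold mv
  rw [Polynomial.eval₂_add]

lemma mv_monomial (n : ℕ) (r : MvPolynomial (Fin N) ℚ) :
    mv (Polynomial.monomial n r) = rename Sum.inr r * X (Sum.inl 0) ^ n := by
  unfold mv
  rw [Polynomial.eval₂_monomial]
  rfl

lemma pd0_mv (f : Polynomial (MvPolynomial (Fin N) ℚ)) :
    pderiv (Sum.inl 0) (mv f) = mv (Polynomial.derivative f) := by
  induction f using Polynomial.induction_on' with
  | add f h hf hh => rw [mv_add, map_add, map_add, mv_add, hf, hh]
  | monomial n r =>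
    rw [mv_monomial, Polynomial.derivative_monomial, mv_monomial, pderiv_mul, pd_ren, zero_mul,
      zero_add, pderiv_pow, pderiv_X_self, mul_one, map_mul, map_natCast]
    ring

lemma pd1_mv (f : Polynomial (MvPolynomial (Fin N) ℚ)) :
    pderiv (Sum.inl 1) (mv f) = 0 := by
  induction f using Polynomial.induction_on' with
  | add f h hf hh => rw [mv_add, map_add, hf, hh, add_zero]
  | monomial n r =>
    rw [mv_monomial, pderiv_mul, pd_ren, zero_mul, zero_add, pderiv_pow,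
      pderiv_X_of_ne (by simp)]
    simp

/-- the tangent vector -/
lemma tangent_eq {x : Fin N → ℝ} (hx : RealPt p g x) (j : Fin N) :
    F.curves.tangent x j = 4 * (aeval x (F.B.coeff 0) : ℝ) *
      ((aeval x (F.B.coeff 0) : ℝ) * aeval x ((F.α j).coeff 1) -
        (aeval x (F.C.coeff 1) : ℝ) * aeval x ((F.β j).coeff 0)) := by
  have hd : ∀ f : Polynomial (MvPolynomial (Fin N) ℚ),
      e2 0 x (Polynomial.derivative f) = aeval x (f.coeff 1) := by
    intro f
    rw [e2_zero, Polynomial.coeff_derivative]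
    simp
  have hP : (F.curves).P j = (X (Sum.inr j) + mv (F.α j)) * (mv F.B + X (Sum.inl 1)) -
    2 * mv F.C * mv (F.β j) := rfl
  have hD : (F.curves).D = mv F.B + X (Sum.inl 1) := rfl
  have hw : (F.curves).w = F.B.coeff 0 := rfl
  have hC0 := F.C0 x hx
  have hα0 := F.α0 x hx j
  unfold Curves.tangent
  rw [hP, hD, hw]
  unfold Curves.ev
  simp only [map_add, map_sub, pderiv_mul, pd0_mv, pd1_mv, map_mul, ev_mv, aeval_X, hd, e2_zero,
    hC0, hα0, Sum.elim_inr, Sum.elim_inl, Matrix.cons_val_one, Matrix.cons_val_fin_one, map_zero,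
    pderiv_X_self, map_ofNat, map_one]
  rw [pderiv_X_of_ne (by simp), pderiv_X_of_ne (by simp), pderiv_X_of_ne (by simp)]
  have h2 : ∀ i : Fin 2 ⊕ Fin N, pderiv i (2 : MvPolynomial (Fin 2 ⊕ Fin N) ℚ) = 0 := by
    intro i
    have : (2 : MvPolynomial (Fin 2 ⊕ Fin N) ℚ) = MvPolynomial.C 2 := (map_ofNat MvPolynomial.C 2).symm
    rw [this, pderiv_C]
  rw [h2, h2]
  simp only [map_zero]
  ring

end Lines

end Pool.Agent.D0H62.EF
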