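import Pool.Agent.D0H62.EF.Quad

/-!
# Restrictions of polynomials to planes
-/

set_option autoImplicit false
set_option linter.unusedSectionVars false
set_option linter.unusedVariables false

open MvPolynomial Filter Topology Pool.Agent.Y718.X Pool.Agent.Y720.MZ
open Pool.Agent.H581R2 Pool.Agent.TH729.SQ

namespace Pool.Agent.D0H62.EF

variable {N : ℕ}

section general

variable {S : Type*} [CommRing S] [Algebra ℚ S]

/-- The polynomial `F(z + α(t) + s β(t))` in `s`, with coefficients in `S[t]`. -/
noncomputable def rs (F : MvPolynomial (Fin N) ℚ) (z : Fin N → S) (α β : Fin N → Polynomial S) :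
    Polynomial (Polynomial S) :=
  aeval (fun j => Polynomial.C (Polynomial.C (z j) + α j) + Polynomial.C (β j) * Polynomial.X) F

/-- The polynomial `F(z + t v)` in `t`. -/
noncomputable def ln (F : MvPolynomial (Fin N) ℚ) (z v : Fin N → S) : Polynomial S :=
  aeval (fun j => Polynomial.C (z j) + Polynomial.C (v j) * Polynomial.X) F

/-- The derivative of `F` at `z` in the direction `v`. -/
noncomputable def dr (F : MvPolynomial (Fin N) ℚ) (z v : Fin N → S) : S :=
  ∑ j, (aeval z (pderiv j F) : S) * v j

lemma ln_coeff (F : MvPolynomial (Fin N) ℚ) (z v : Fin N → S) :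
    (ln F z v).coeff 0 = aeval z F ∧ (ln F z v).coeff 1 = dr F z v := by
  unfold ln dr
  induction F using MvPolynomial.induction_on with
  | C a =>
    constructor
    · rw [algHom_C, algHom_C, Polynomial.algebraMap_apply, Polynomial.coeff_C_zero]
    · rw [algHom_C, Polynomial.algebraMap_apply, Polynomial.coeff_C_succ]
      simp
  | add p q hp hq =>
    constructor
    · rw [map_add, map_add, Polynomial.coeff_add, hp.1, hq.1]
    · rw [map_add, Polynomial.coeff_add, hp.2, hq.2, ← Finset.sum_add_distrib]
      exact Finset.sum_congr rfl fun j _ => by rw [map_add, map_add, add_mul]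
  | mul_X p i hp =>
    constructor
    · rw [map_mul, map_mul, aeval_X, aeval_X, Polynomial.mul_coeff_zero, hp.1]
      simp
    · rw [map_mul, aeval_X, mul_add, Polynomial.coeff_add, Polynomial.coeff_mul_C, hp.2,
        ← mul_assoc, Polynomial.coeff_mul_X, Polynomial.coeff_mul_C, hp.1]
      classical
      have h1 : ∀ j, (aeval z (pderiv j (p * X i)) : S) * v j =
          (aeval z (pderiv j p) : S) * v j * z i + if j = i then (aeval z p : S) * v j else 0 := by
        intro j
        rw [pderiv_mul, map_add, map_mul, map_mul, aeval_X, pderiv_X]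
        by_cases hj : j = i
        · subst hj
          rw [Pi.single_eq_same, map_one, if_pos rfl]
          ring
        · rw [Pi.single_eq_of_ne (Ne.symm hj), map_zero, if_neg hj]
          ring
      rw [Finset.sum_congr rfl fun j _ => h1 j, Finset.sum_add_distrib, ← Finset.sum_mul,
        Finset.sum_ite_eq' Finset.univ i]
      simp

lemma ln_map {S' : Type*} [CommRing S'] [Algebra ℚ S'] (φ : S →+* S')
    (F : MvPolynomial (Fin N) ℚ) (z v : Fin N → S) :
    (ln F z v).map φ = ln F (fun j => φ (z j)) (fun j => φ (v j)) := by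
  unfold ln
  induction F using MvPolynomial.induction_on with
  | C a =>
    rw [algHom_C, algHom_C, ← Polynomial.coe_mapRingHom, RingHom.map_rat_algebraMap]
  | add p q hp hq => rw [map_add, map_add, Polynomial.map_add, hp, hq]
  | mul_X p i hp =>
    rw [map_mul, map_mul, aeval_X, aeval_X, Polynomial.map_mul, hp]
    simp

lemma rs_eq (F : MvPolynomial (Fin N) ℚ) (z : Fin N → S) (α β : Fin N → Polynomial S) :
    rs F z α β = ln F (fun j => Polynomial.C (z j) + α j) β := rfl

lemma rs_map {S' : Type*} [CommRing S'] [Algebra ℚ S'] (φ : S →+* S')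
    (F : MvPolynomial (Fin N) ℚ) (z : Fin N → S) (α β : Fin N → Polynomial S) :
    (rs F z α β).map (Polynomial.mapRingHom φ) =
      rs F (fun j => φ (z j)) (fun j => (α j).map φ) (fun j => (β j).map φ) := by
  rw [rs_eq, ln_map, rs_eq]
  simp only [map_add, Polynomial.coe_mapRingHom, Polynomial.map_C]

lemma rs_coeff_map {S' : Type*} [CommRing S'] [Algebra ℚ S'] (φ : S →+* S')
    (F : MvPolynomial (Fin N) ℚ) (z : Fin N → S) (α β : Fin N → Polynomial S) (k : ℕ) :
    ((rs F z α β).coeff k).map φ =
      (rs F (fun j => φ (z j)) (fun j => (α j).map φ) (fun j => (β j).map φ)).coeff k := by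
  rw [← rs_map, Polynomial.coeff_map]
  rfl

/-- the coefficient of `s ^ k` has degree at most `k` in `t` -/
lemma rs_deg (F : MvPolynomial (Fin N) ℚ) (z : Fin N → S) (β : Fin N → Polynomial S)
    (hβ : ∀ j, (β j).natDegree ≤ 1) (k : ℕ) :
    ((rs F z (fun _ => 0) β).coeff k).natDegree ≤ k := by
  unfold rs
  induction F using MvPolynomial.induction_on generalizing k with
  | C a =>
    rw [algHom_C, Polynomial.algebraMap_apply, Polynomial.algebraMap_apply]
    rcases k with _ | k
    · rw [Polynomial.coeff_C_zero, Polynomial.natDegree_C]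
    · rw [Polynomial.coeff_C_succ, Polynomial.natDegree_zero]
      exact Nat.zero_le _
  | add p q hp hq =>
    rw [map_add, Polynomial.coeff_add]
    exact Polynomial.natDegree_add_le_of_degree_le (hp k) (hq k)
  | mul_X p i hp =>
    rw [map_mul, aeval_X, mul_add, Polynomial.coeff_add, Polynomial.coeff_mul_C, add_zero]
    refine Polynomial.natDegree_add_le_of_degree_le ?_ ?_
    · refine (Polynomial.natDegree_mul_C_le _ _).trans (hp k)
    · rw [← mul_assoc]
      rcases k with _ | k
      · rw [Polynomial.mul_coeff_zero, Polynomial.coeff_X_zero, mul_zero, Polynomial.natDegree_zero]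
      · rw [Polynomial.coeff_mul_X, Polynomial.coeff_mul_C]
        exact (Polynomial.natDegree_mul_le).trans (Nat.add_le_add (hp k) (hβ i))

end general

section generic

/-- polynomials which vanish at all rational points -/
lemma gen_zero {f : Polynomial (MvPolynomial (Fin N) ℚ)}
    (h : ∀ x : Fin N → ℚ, f.map (eval x) = 0) : f = 0 := by
  ext1 k
  rw [Polynomial.coeff_zero]
  refine MvPolynomial.funext fun x => ?_
  rw [map_zero]
  have := congrArg (fun g : Polynomial ℚ => g.coeff k) (h x)
  simpa [Polynomial.coeff_map] using this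

lemma gen_deg {f : Polynomial (MvPolynomial (Fin N) ℚ)} {d : ℕ}
    (h : ∀ x : Fin N → ℚ, (f.map (eval x)).natDegree ≤ d) : f.natDegree ≤ d := by
  rw [Polynomial.natDegree_le_iff_coeff_eq_zero]
  intro k hk
  refine MvPolynomial.funext fun x => ?_
  rw [map_zero]
  have := Polynomial.coeff_eq_zero_of_natDegree_lt ((h x).trans_lt hk)
  rwa [Polynomial.coeff_map] at this

lemma gen_deg2 {f : Polynomial (Polynomial (MvPolynomial (Fin N) ℚ))} {d : ℕ}
    (h : ∀ x : Fin N → ℚ, (f.map (Polynomial.mapRingHom (eval x))).natDegree ≤ d) :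
    f.natDegree ≤ d := by
  rw [Polynomial.natDegree_le_iff_coeff_eq_zero]
  intro k hk
  refine gen_zero fun x => ?_
  have := Polynomial.coeff_eq_zero_of_natDegree_lt ((h x).trans_lt hk)
  rwa [Polynomial.coeff_map] at this

/-- the real values of the restriction -/
lemma rs_real (F : MvPolynomial (Fin N) ℚ) (α β : Fin N → Polynomial (MvPolynomial (Fin N) ℚ))
    (x : Fin N → ℝ) (τ T : ℝ) :
    (rs F (fun j => (X j : MvPolynomial (Fin N) ℚ)) α β).eval₂ (e2 τ x) T =
      aeval (fun j => x j + e2 τ x (α j) + T * e2 τ x (β j)) F := by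
  unfold rs
  induction F using MvPolynomial.induction_on with
  | C a =>
    rw [algHom_C, algHom_C, ← Polynomial.coe_eval₂RingHom, RingHom.map_rat_algebraMap]
  | add p q hp hq => rw [map_add, map_add, Polynomial.eval₂_add, hp, hq]
  | mul_X p i hp =>
    rw [map_mul, map_mul, aeval_X, aeval_X, Polynomial.eval₂_mul, hp]
    congr 1
    rw [Polynomial.eval₂_add, Polynomial.eval₂_C, Polynomial.eval₂_mul, Polynomial.eval₂_C,
      Polynomial.eval₂_X, map_add]
    have h1 : e2 τ x (Polynomial.C (X i)) = x i := by
      rw [e2_def, Polynomial.eval₂_C]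
      change (aeval x (X i : MvPolynomial (Fin N) ℚ) : ℝ) = x i
      rw [aeval_X]
    rw [h1]
    ring

end generic

end Pool.Agent.D0H62.EF
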