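import Pool.Agent.D0H62.EF.Hyp
import Pool.Agent.Y718.GY

/-!
# Hypersurfaces with plane sections of genus at most one
-/

set_option autoImplicit false
set_option linter.unusedSectionVars false
set_option linter.unusedVariables false

open MvPolynomial Filter Topology Pool.Agent.Y718.X Pool.Agent.Y720.MZ
open Pool.Agent.H581R2 Pool.Agent.TH729.SQ

namespace Pool.Agent.D0H62.EF

section span

variable {N c : ℕ} {p : Fin c → MvPolynomial (Fin N) ℚ} {g : MvPolynomial (Fin N) ℚ}
  {κ : Type} [Fintype κ]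

lemma comb_iff (G : κ → Prop) (T : κ → Fin N → ℝ) (w : Fin N → ℝ) :
    (∃ τ : κ → ℝ, (∀ k, ¬ G k → τ k = 0) ∧ ∀ j, w j = ∑ k, τ k * T k j) ↔
      w ∈ Submodule.span ℝ {u | ∃ k, G k ∧ u = T k} := by
  classical
  constructor
  · rintro ⟨τ, hτ0, hτ⟩
    have h : w = ∑ k, τ k • T k := by
      funext j
      rw [hτ j, Finset.sum_apply]
      rfl
    rw [h]
    refine Submodule.sum_mem _ fun k _ => ?_
    by_cases hk : G k
    · exact Submodule.smul_mem _ _ (Submodule.subset_span ⟨k, hk, rfl⟩)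
    · rw [hτ0 k hk, zero_smul]
      exact Submodule.zero_mem _
  · intro h
    induction h using Submodule.span_induction with
    | mem u hu =>
      obtain ⟨k, hk, rfl⟩ := hu
      refine ⟨Pi.single k 1, fun l hl => ?_, fun j => ?_⟩
      · rw [Pi.single_eq_of_ne]
        rintro rfl
        exact hl hk
      · rw [Finset.sum_eq_single k]
        · rw [Pi.single_eq_same, one_mul]
        · intro l _ hl
          rw [Pi.single_eq_of_ne hl, zero_mul]
        · simp
    | zero => exact ⟨0, fun _ _ => rfl, fun j => by simp⟩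
    | add u v _ _ hu hv =>
      obtain ⟨τ, h1, h2⟩ := hu
      obtain ⟨σ, h3, h4⟩ := hv
      refine ⟨τ + σ, fun k hk => ?_, fun j => ?_⟩
      · rw [Pi.add_apply, h1 k hk, h3 k hk, add_zero]
      · rw [Pi.add_apply, h2 j, h4 j, ← Finset.sum_add_distrib]
        exact Finset.sum_congr rfl fun k _ => by rw [Pi.add_apply, add_mul]
    | smul r u _ hu =>
      obtain ⟨τ, h1, h2⟩ := hu
      refine ⟨r • τ, fun k hk => ?_, fun j => ?_⟩
      · rw [Pi.smul_apply, h1 k hk, smul_zero]
      · rw [Pi.smul_apply, h2 j, smul_eq_mul, Finset.mul_sum]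
        exact Finset.sum_congr rfl fun k _ => by rw [Pi.smul_apply, smul_eq_mul, mul_assoc]

/-- the nondegenerate points, with the span -/
lemma nd_span (C : κ → Curves p g) : ND C = {x | RealPt p g (toR x) ∧ Smooth p (toR x) ∧
    ∀ w : Fin N → ℝ, (∀ i, ∑ j, (aeval (toR x) (pderiv j (p i)) : ℝ) * w j = 0) →
      w ∈ Submodule.span ℝ {u | ∃ k, Good C x k ∧ u = (C k).tangent (toR x)}} := by
  ext x
  unfold ND
  refine and_congr Iff.rfl (and_congr Iff.rfl (forall_congr' fun w => forall_congr' fun hw => ?_))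
  exact comb_iff (fun k => Good C x k) (fun k => (C k).tangent (toR x)) w

/-- the good real points, with the span -/
lemma vv_span (C : κ → Curves p g) : VV C = {x | RealPt p g x ∧ Smooth p x ∧
    (∀ k, (C k).Ok0 x) ∧ ∀ w : Fin N → ℝ,
      (∀ i, ∑ j, (aeval x (pderiv j (p i)) : ℝ) * w j = 0) →
      w ∈ Submodule.span ℝ {u | ∃ k, u = (C k).tangent x}} := by
  ext x
  unfold VV Spans
  refine and_congr Iff.rfl (and_congr Iff.rfl (and_congr Iff.rfl
    (forall_congr' fun w => forall_congr' fun hw => ?_)))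
  have h := comb_iff (fun _ : κ => True) (fun k => (C k).tangent x) w
  simp only [not_true_eq_false, false_imp_iff, implies_true, true_and] at h
  exact h

end span

section sections

variable {N : ℕ} {F : MvPolynomial (Fin N) ℚ}

lemma smooth_iff (F : MvPolynomial (Fin N) ℚ) (x : Fin N → ℝ) :
    Smooth (eqn F) x ↔ ∃ j, (aeval x (pderiv j F) : ℝ) ≠ 0 := by
  constructor
  · intro h
    obtain ⟨w, hw⟩ := h 1
    by_contra hc
    push Not at hc
    have h1 := hw 0
    rw [Finset.sum_eq_zero fun j _ => by rw [hc j, zero_mul]] at h1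
    exact zero_ne_one h1
  · rintro ⟨j, hj⟩ z
    classical
    refine ⟨Pi.single j (z 0 / aeval x (pderiv j F)), fun i => ?_⟩
    rw [Finset.sum_eq_single j]
    · rw [Pi.single_eq_same, Subsingleton.elim i 0]
      field_simp
    · intro k _ hk
      rw [Pi.single_eq_of_ne hk, mul_zero]
    · simp

/-- the section of the first kind is nondegenerate -/
def S1 (F : MvPolynomial (Fin N) ℚ) (s : (Fin N → ℚ) × (Fin N → ℚ)) (x : Fin N → ℚ) : Prop :=
  dr F x s.2 ≠ 0 ∧ KI F s.1 s.2 ∧ Inf (qI F x s.1 s.2)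

/-- the section of the second kind is nondegenerate -/
def S2 (F : MvPolynomial (Fin N) ℚ) (s : (Fin N → ℚ) × (Fin N → ℚ)) (x : Fin N → ℚ) : Prop :=
  dr F x s.2 ≠ 0 ∧ KD 3 F s.1 s.2 ∧ Inf (qII F x s.1 s.2)

lemma dr_rat (F : MvPolynomial (Fin N) ℚ) (x v : Fin N → ℚ) :
    dr F (toR x) (fun j => (v j : ℝ)) = ((dr F x v : ℚ) : ℝ) := by
  have h := dr_map (algebraMap ℚ ℝ) F x v
  simp only [eq_ratCast] at h
  exact h.symm

lemma tg_rat (F : MvPolynomial (Fin N) ℚ) (x a b : Fin N → ℚ) (j : Fin N) :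
    tg F (toR x) (fun j => (a j : ℝ)) (fun j => (b j : ℝ)) j = ((tg F x a b j : ℚ) : ℝ) := by
  have h := tg_map (algebraMap ℚ ℝ) F x a b j
  simp only [eq_ratCast] at h
  exact h.symm

lemma inf_const {q : Polynomial ℚ} (h1 : q.coeff 1 = 0) (h2 : q.coeff 2 = 0) (h3 : q.coeff 3 = 0)
    (h4 : q.coeff 4 = 0) : ¬ Inf q := by
  rintro ⟨hD, -⟩
  apply hD
  unfold Db dsc Pool.Agent.Y718.X.Ab Bb Cb
  rw [h1, h2, h3, h4]
  ring

lemma not_rat_of_inf {c : ℕ} {p : Fin c → MvPolynomial (Fin N) ℚ} {g : MvPolynomial (Fin N) ℚ}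
    {C : Curves p g} {x : Fin N → ℚ} (h : Inf (C.quartic x)) : ¬ C.Rat := by
  intro hR
  have hc : ∀ k : Fin 5, k ≠ 0 → (C.quartic x).coeff (k : ℕ) = 0 := by
    intro k hk
    rw [C.quartic_coeff, hR k hk, map_zero]
  exact inf_const (hc 1 (by decide)) (hc 2 (by decide)) (hc 3 (by decide)) (hc 4 (by decide)) h

lemma ev_X1 (t s : ℝ) (x : Fin N → ℝ) :
    (aeval (Sum.elim ![t, s] x) (X (Sum.inl 1) : MvPolynomial (Fin 2 ⊕ Fin N) ℚ) : ℝ) = s := by
  rw [aeval_X]
  rfl

lemma lines_ok0 {c : ℕ} {p : Fin c → MvPolynomial (Fin N) ℚ} {g : MvPolynomial (Fin N) ℚ}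
    (L : Lines p g) (x : Fin N → ℝ) :
    L.curves.Ok0 x ↔ (aeval x (L.B.coeff 0) : ℝ) ≠ 0 := by
  unfold Curves.Ok0
  have h1 : L.curves.w = L.B.coeff 0 := rfl
  have h2 : Curves.ev L.curves.D 0 (aeval x L.curves.w) x = 2 * (aeval x (L.B.coeff 0) : ℝ) := by
    have h3 : L.curves.D = mv L.B + X (Sum.inl 1) := rfl
    rw [h3, h1]
    unfold Curves.ev
    rw [map_add, ev_mv, e2_zero, ev_X1]
    ring
  rw [h2, h1]
  constructor
  · exact fun h => h.1
  · exact fun h => ⟨h, mul_ne_zero two_ne_zero h⟩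

lemma famI_ok0 {a b : Fin N → ℚ} (h : KI F a b) (x : Fin N → ℝ) :
    (famI h).Ok0 x ↔ dr F x (fun j => (b j : ℝ)) ≠ 0 := by
  rw [famI, lines_ok0]
  have hB : (linesI h).B.coeff 0 = dr F gX (gc b) := (pI_coeff F a b).2.2
  rw [hB, dr_real]

/-- the index set -/
def Ix (F : MvPolynomial (Fin N) ℚ) (S : Finset ((Fin N → ℚ) × (Fin N → ℚ))) : Type :=
  {s : S // ∃ h : KI F s.1.1 s.1.2, ¬ (famI h).Rat} ⊕
    {s : S // ∃ h : KD 3 F s.1.1 s.1.2, ¬ (famII h).Rat}

noncomputable instance (F : MvPolynomial (Fin N) ℚ) (S : Finset ((Fin N → ℚ) × (Fin N → ℚ))) :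
    Fintype (Ix F S) := by
  classical
  unfold Ix
  infer_instance

/-- the families -/
noncomputable def fam (F : MvPolynomial (Fin N) ℚ) (S : Finset ((Fin N → ℚ) × (Fin N → ℚ))) :
    Ix F S → Curves (eqn F) 1
  | Sum.inl s => famI s.2.choose
  | Sum.inr s => famII s.2.choose

/-- the nondegenerate points of the hypersurface -/
def HP (F : MvPolynomial (Fin N) ℚ) (S : Finset ((Fin N → ℚ) × (Fin N → ℚ))) :
    Set (Fin N → ℚ) :=
  {x | eval x F = 0 ∧ (∃ j, eval x (pderiv j F) ≠ 0) ∧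
    ∀ w : Fin N → ℝ, ∑ j, ((eval x (pderiv j F) : ℚ) : ℝ) * w j = 0 →
      w ∈ Submodule.span ℝ {u | ∃ s ∈ S, (S1 F s x ∨ S2 F s x) ∧
        u = fun j => ((tg F x s.1 s.2 j : ℚ) : ℝ)}}

lemma hp_eq (F : MvPolynomial (Fin N) ℚ) (S : Finset ((Fin N → ℚ) × (Fin N → ℚ))) :
    ND (fam F S) = HP F S := by
  rw [nd_span]
  ext x
  have hreal : RealPt (eqn F) 1 (toR x) ↔ eval x F = 0 := by
    rw [real_iff, aeval_toR]
    norm_cast
  have hsm : Smooth (eqn F) (toR x) ↔ ∃ j, eval x (pderiv j F) ≠ 0 := by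
    rw [smooth_iff]
    refine exists_congr fun j => ?_
    rw [aeval_toR]
    norm_cast
  have hker : ∀ w : Fin N → ℝ,
      (∀ i : Fin 1, ∑ j, (aeval (toR x) (pderiv j (eqn F i)) : ℝ) * w j = 0) ↔
      ∑ j, ((eval x (pderiv j F) : ℚ) : ℝ) * w j = 0 := by
    intro w
    simp only [aeval_toR]
    exact ⟨fun h => h 0, fun h _ => h⟩
  change (RealPt (eqn F) 1 (toR x) ∧ Smooth (eqn F) (toR x) ∧ _) ↔ _
  rw [hreal, hsm]
  unfold HP
  refine and_congr_right fun hx0 => and_congr Iff.rfl (forall_congr' fun w => ?_)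
  rw [hker w]
  refine forall_congr' fun hw => ?_
  have hX : (aeval (toR x) F : ℝ) = 0 := by rw [aeval_toR, hx0, Rat.cast_zero]
  -- the spans
  have hspan : Submodule.span ℝ {u | ∃ k, Good (fam F S) x k ∧ u = (fam F S k).tangent (toR x)} =
      Submodule.span ℝ {u | ∃ s ∈ S, (S1 F s x ∨ S2 F s x) ∧
        u = fun j => ((tg F x s.1 s.2 j : ℚ) : ℝ)} := by
    apply le_antisymm
    · refine Submodule.span_le.2 ?_
      rintro _ ⟨k, ⟨hk1, hk2⟩, rfl⟩
      rcases k with ⟨s, hs⟩ | ⟨s, hs⟩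
      · have hn := hs.choose_spec
        have hinf : Inf (qI F x s.1.1 s.1.2) := by
          have h1 := hk2.resolve_left hn
          have h2 := famI_quartic hs.choose x
          rw [← h2]
          exact h1
        have h3 : dr F x s.1.2 ≠ 0 := by
          have h4 := (famI_ok0 hs.choose (toR x)).1 hk1
          rw [dr_rat] at h4
          exact_mod_cast h4
        have h5 : (fam F S (Sum.inl ⟨s, hs⟩)).tangent (toR x) =
            (4 * ((dr F x s.1.2 : ℚ) : ℝ)) • fun j => ((tg F x s.1.1 s.1.2 j : ℚ) : ℝ) := by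
          funext j
          have h6 := famI_tangent hs.choose hX j
          refine h6.trans ?_
          rw [dr_rat, tg_rat]
          rfl
        rw [h5]
        refine Submodule.smul_mem _ _ (Submodule.subset_span ⟨s.1, s.2, Or.inl ⟨h3, hs.choose,
          hinf⟩, rfl⟩)
      · have hn := hs.choose_spec
        have hinf : Inf (qII F x s.1.1 s.1.2) := by
          have h1 := hk2.resolve_left hn
          have h2 := famII_quartic hs.choose x
          rw [← h2]
          exact h1
        have h5 : (fam F S (Sum.inr ⟨s, hs⟩)).tangent (toR x) =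
            (-(4 * (aeval (toR x) (((pII F gX (gc s.1.1) (gc s.1.2)).coeff 2).coeff 0) : ℝ) *
              ((dr F x s.1.2 : ℚ) : ℝ))) • fun j => ((tg F x s.1.1 s.1.2 j : ℚ) : ℝ) := by
          funext j
          have h6 := famII_tangent hs.choose hX j
          refine h6.trans ?_
          rw [dr_rat, tg_rat]
          rfl
        rw [h5]
        by_cases h3 : dr F x s.1.2 = 0
        · rw [h3, Rat.cast_zero, mul_zero, neg_zero, zero_smul]
          exact Submodule.zero_mem _
        · exact Submodule.smul_mem _ _ (Submodule.subset_span ⟨s.1, s.2, Or.inr ⟨h3, hs.choose,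
            hinf⟩, rfl⟩)
    · refine Submodule.span_le.2 ?_
      rintro _ ⟨s, hsS, hs, rfl⟩
      rcases hs with ⟨h3, hK, hinf⟩ | ⟨h3, hK, hinf⟩
      · have hinf' : Inf ((famI hK).quartic x) := by rw [famI_quartic]; exact hinf
        let k : Ix F S := Sum.inl ⟨⟨s, hsS⟩, hK, not_rat_of_inf hinf'⟩
        have hk : fam F S k = famI hK := rfl
        have h5 : (fam F S k).tangent (toR x) =
            (4 * ((dr F x s.2 : ℚ) : ℝ)) • fun j => ((tg F x s.1 s.2 j : ℚ) : ℝ) := by
          funext j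
          rw [hk]
          refine (famI_tangent hK hX j).trans ?_
          rw [dr_rat, tg_rat]
          rfl
        have h6 : (4 * ((dr F x s.2 : ℚ) : ℝ)) ≠ 0 :=
          mul_ne_zero (by norm_num) (by exact_mod_cast h3)
        have h7 : (fun j => ((tg F x s.1 s.2 j : ℚ) : ℝ)) =
            (4 * ((dr F x s.2 : ℚ) : ℝ))⁻¹ • (fam F S k).tangent (toR x) := by
          rw [h5, smul_smul, inv_mul_cancel₀ h6, one_smul]
        rw [h7]
        refine Submodule.smul_mem _ _ (Submodule.subset_span ⟨k, ⟨?_, ?_⟩, rfl⟩)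
        · rw [hk, famI_ok0, dr_rat]
          exact_mod_cast h3
        · rw [hk]
          exact Or.inr hinf'
      · have hinf' : Inf ((famII hK).quartic x) := by rw [famII_quartic]; exact hinf
        let k : Ix F S := Sum.inr ⟨⟨s, hsS⟩, hK, not_rat_of_inf hinf'⟩
        have hk : fam F S k = famII hK := rfl
        set ω : ℝ := (aeval (toR x) (((pII F gX (gc s.1) (gc s.2)).coeff 2).coeff 0) : ℝ) with hω
        have hok : (famII hK).Ok0 (toR x) ↔ ω ≠ 0 := by
          rw [famII, lines_ok0]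
          exact Iff.rfl
        have hω0 : ω ≠ 0 := by
          intro h0
          obtain ⟨-, w', hw', hw2, -⟩ := hinf'
          have h8 := (famII hK).base (toR x) ((real_iff F (toR x)).2 hX)
          have h9 : (aeval (toR x) (famII hK).w : ℝ) = ω := rfl
          rw [h9, h0, aeval_toR] at h8
          have h10 := (famII hK).quartic_coeff x 0
          have h11 : ((famII hK).quartic x).coeff 0 = 0 := by
            refine h10.trans ?_
            have : ((eval x ((famII hK).q 0) : ℚ) : ℝ) = 0 := by rw [← h8]; ring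
            exact_mod_cast this
          rw [h11] at hw2
          exact hw' (pow_eq_zero_iff two_ne_zero |>.1 hw2)
        have h5 : (fam F S k).tangent (toR x) =
            (-(4 * ω * ((dr F x s.2 : ℚ) : ℝ))) • fun j => ((tg F x s.1 s.2 j : ℚ) : ℝ) := by
          funext j
          rw [hk]
          refine (famII_tangent hK hX j).trans ?_
          rw [dr_rat, tg_rat]
          rfl
        have h6 : (-(4 * ω * ((dr F x s.2 : ℚ) : ℝ))) ≠ 0 :=
          neg_ne_zero.2 (mul_ne_zero (mul_ne_zero (by norm_num) hω0) (by exact_mod_cast h3))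
        have h7 : (fun j => ((tg F x s.1 s.2 j : ℚ) : ℝ)) =
            (-(4 * ω * ((dr F x s.2 : ℚ) : ℝ)))⁻¹ • (fam F S k).tangent (toR x) := by
          rw [h5, smul_smul, inv_mul_cancel₀ h6, one_smul]
        rw [h7]
        refine Submodule.smul_mem _ _ (Submodule.subset_span ⟨k, ⟨?_, ?_⟩, rfl⟩)
        · rw [hk]
          exact hok.2 hω0
        · rw [hk]
          exact Or.inr hinf'
  rw [hspan]

/-- **The closure is semialgebraic.** -/
theorem sa_hp (F : MvPolynomial (Fin N) ℚ) (S : Finset ((Fin N → ℚ) × (Fin N → ℚ))) :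
    SA (closure (rl (HP F S))) := by
  rw [← hp_eq]
  exact sa_nd _

end sections

end Pool.Agent.D0H62.EF
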